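import Mathlib
import Pool.Agent.H534R2.AKttMain

/-!
# Degree barrier for algebraic `K_{a,b}`-free graphs: systems of equations
-/

namespace Pool.Agent.H444R3.Deg

open MvPolynomial Finset
open Pool.Agent.H534R2.AKtt

variable {F : Type} [Field F]

/-- Chevalley-Warning for lines in the zero set of a system. -/
lemma exists_line_sys [Fintype F] {s M : ℕ} {ι : Type} [Fintype ι] (y : Fin s → F)
    (f : ι → MvPolynomial (Fin s) F) (d : ι → ℕ)
    (hd : ∀ i, (f i).totalDegree ≤ d i) (hM : ∑ i, d i * (d i + 1) / 2 < M)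
    (hy : ∀ i, eval y (f i) = 0) :
    ∃ b : Fin M → F, b ≠ 0 ∧ ∀ τ : F, ∀ i, eval (y + τ • ext b) (f i) = 0 := by
  classical
  obtain ⟨p, hp⟩ := CharP.exists F
  have := hp
  have hprime : p.Prime := CharP.char_is_prime F p
  set J : Finset (Σ _ : ι, ℕ) := univ.sigma (fun i => Icc 1 (d i)) with hJ
  have hcw := char_dvd_card_solutions_of_sum_lt (K := F) (σ := Fin M) p (s := J)
    (f := fun j => (lsub M y (f j.1)).coeff j.2) (by
      rw [Fintype.card_fin]
      refine lt_of_le_of_lt (Finset.sum_le_sum fun j _ => lsub_totalDegree y (f j.1) j.2) ?_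
      rw [hJ, Finset.sum_sigma]
      refine lt_of_le_of_lt (le_of_eq ?_) hM
      apply Finset.sum_congr rfl
      intro i _
      exact sumIcc (d i))
  have hz : ∀ j ∈ J, eval (0 : Fin M → F) ((lsub M y (f j.1)).coeff j.2) = 0 := by
    intro j _
    have h := congrArg (fun q => Polynomial.coeff q j.2) (lsub_zero (M := M) y (f j.1))
    simp only [Polynomial.coeff_map, hy, map_zero, Polynomial.coeff_zero] at h
    exact h
  have hpos : 0 < Fintype.card {x : Fin M → F // ∀ j ∈ J,
      eval x ((lsub M y (f j.1)).coeff j.2) = 0} :=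
    Fintype.card_pos_iff.2 ⟨⟨0, hz⟩⟩
  have h2 : 1 < Fintype.card {x : Fin M → F // ∀ j ∈ J,
      eval x ((lsub M y (f j.1)).coeff j.2) = 0} :=
    lt_of_lt_of_le hprime.one_lt (Nat.le_of_dvd hpos hcw)
  obtain ⟨⟨b, hb⟩, hne⟩ := Fintype.exists_ne_of_one_lt_card h2 ⟨0, hz⟩
  have hne' : b ≠ 0 := fun h => hne (Subtype.ext h)
  refine ⟨b, hne', fun τ i => ?_⟩
  have hc0 : eval b ((lsub M y (f i)).coeff 0) = 0 := by
    have h := lsub_eval y b 0 (f i)
    rw [← Polynomial.coeff_zero_eq_eval_zero, Polynomial.coeff_map] at h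
    rw [h]
    simpa using hy i
  have hall : ∀ j, eval b ((lsub M y (f i)).coeff j) = 0 := by
    intro j
    by_cases hj : j ∈ Icc 1 (d i)
    · exact hb ⟨i, j⟩ (by rw [hJ, Finset.mem_sigma]; exact ⟨mem_univ _, hj⟩)
    · rcases Nat.eq_zero_or_pos j with h | h
      · rw [h]; exact hc0
      · have hj' : d i < j := by
          rw [mem_Icc] at hj
          omega
        rw [coeff_big y (f i) (hd i) hj', map_zero]
  have h3 : (lsub M y (f i)).map (eval b) = 0 := by
    ext j
    rw [Polynomial.coeff_map, hall j, Polynomial.coeff_zero]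
  have h4 := lsub_eval y b τ (f i)
  rw [h3, Polynomial.eval_zero, ext_line] at h4
  exact h4.symm

/-- double counting, with the points restricted to a set `V` -/
lemma count_lines_on [Fintype F] [DecidableEq F] {s : ℕ} {X : Type} [Fintype X]
    (N : X → (Fin s → F) → Prop) [∀ x y, Decidable (N x y)] (V : Finset (Fin s → F))
    (Dy : (Fin s → F) → Finset (Fin s → F))
    (h0 : ∀ y, ∀ v ∈ Dy y, v ≠ 0) (hsc : ∀ y, ∀ v ∈ Dy y, ∀ c : F, c ≠ 0 → c • v ∈ Dy y)
    (hdir : ∀ x y, N x y → ∃ v ∈ Dy y, ∀ τ : F, N x (y + τ • v)) (t B : ℕ)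
    (ht : ∀ y ∈ V, ∀ v : Fin s → F, v ≠ 0 →
      (univ.filter (fun x => ∀ τ : F, N x (y + τ • v))).card ≤ t)
    (hB : ∀ y, (Dy y).card ≤ B) :
    (Fintype.card F - 1) *
        (univ.filter (fun p : X × (Fin s → F) => p.2 ∈ V ∧ N p.1 p.2)).card ≤
      t * (V.card * B) := by
  classical
  have hlow : ∀ p : X × (Fin s → F), N p.1 p.2 → Fintype.card F - 1 ≤
      ((Dy p.2).filter (fun v => ∀ τ : F, N p.1 (p.2 + τ • v))).card := by
    rintro ⟨x, y⟩ hxy
    obtain ⟨v, hv, hline⟩ := hdir x y hxy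
    have hcard : (univ.filter (fun c : F => c ≠ 0)).card = Fintype.card F - 1 := by
      rw [Finset.filter_ne' univ (0 : F), Finset.card_erase_of_mem (mem_univ _), card_univ]
    rw [← hcard]
    apply Finset.card_le_card_of_injOn (fun c => c • v)
    · intro c hc
      have hc' := (mem_filter.1 (mem_coe.1 hc)).2
      rw [mem_coe, mem_filter]
      refine ⟨hsc y v hv c hc', fun τ => ?_⟩
      have h1 := hline (τ * c)
      rwa [mul_smul] at h1
    · intro c _ c' _ hcc
      have hv0 := h0 y v hv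
      have h2 : (c - c') • v = 0 := by
        have h3 : c • v = c' • v := hcc
        rw [sub_smul, h3, sub_self]
      rcases smul_eq_zero.1 h2 with h | h
      · exact sub_eq_zero.1 h
      · exact absurd h hv0
  have h1 : (Fintype.card F - 1) *
      (univ.filter (fun p : X × (Fin s → F) => p.2 ∈ V ∧ N p.1 p.2)).card ≤
      ∑ p ∈ (univ : Finset X) ×ˢ V,
        ((Dy p.2).filter (fun v => ∀ τ : F, N p.1 (p.2 + τ • v))).card := by
    calc _ = ∑ p ∈ univ.filter (fun p : X × (Fin s → F) => p.2 ∈ V ∧ N p.1 p.2),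
          (Fintype.card F - 1) := by
          rw [sum_const, smul_eq_mul, mul_comm]
      _ ≤ ∑ p ∈ univ.filter (fun p : X × (Fin s → F) => p.2 ∈ V ∧ N p.1 p.2),
          ((Dy p.2).filter (fun v => ∀ τ : F, N p.1 (p.2 + τ • v))).card :=
          sum_le_sum fun p hp => hlow p (mem_filter.1 hp).2.2
      _ ≤ _ := sum_le_sum_of_subset (by
          intro p hp
          rw [mem_product]
          exact ⟨mem_univ _, (mem_filter.1 hp).2.1⟩)
  refine h1.trans ?_
  rw [Finset.sum_product_right]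
  have h2 : ∀ y ∈ V, ∑ x : X, ((Dy y).filter (fun v => ∀ τ : F, N x (y + τ • v))).card ≤
      t * B := by
    intro y hy
    have h3 : ∑ x : X, ((Dy y).filter (fun v => ∀ τ : F, N x (y + τ • v))).card =
        ∑ v ∈ Dy y, (univ.filter (fun x => ∀ τ : F, N x (y + τ • v))).card := by
      simp only [card_filter]
      rw [sum_comm]
    rw [h3]
    calc ∑ v ∈ Dy y, (univ.filter (fun x => ∀ τ : F, N x (y + τ • v))).card ≤ ∑ v ∈ Dy y, t :=
          sum_le_sum fun v hv => ht y hy v (h0 y v hv)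
      _ = (Dy y).card * t := by rw [sum_const, smul_eq_mul]
      _ ≤ B * t := Nat.mul_le_mul_right _ (hB y)
      _ = t * B := mul_comm _ _
  calc ∑ y ∈ V, ∑ x : X, ((Dy y).filter (fun v => ∀ τ : F, N x (y + τ • v))).card
      ≤ ∑ _y ∈ V, t * B := sum_le_sum fun y hy => h2 y hy
    _ = t * (V.card * B) := by
        rw [sum_const, smul_eq_mul]
        ring

/-- two sets almost completely joined give a `K_{a,b}` -/
lemma not_free_of_sets {W : Type} [DecidableEq W] (G : SimpleGraph W) {a b : ℕ} (A L : Finset W)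
    (hA : a ≤ A.card) (hL : a + b ≤ L.card) (h : ∀ x ∈ A, ∀ y ∈ L, y ≠ x → G.Adj x y) :
    ¬ (completeBipartiteGraph (Fin a) (Fin b)).Free G := by
  classical
  obtain ⟨A', hA', hAc⟩ := Finset.exists_subset_card_eq hA
  have hBc : b ≤ (L \ A').card := by
    have h4 := Finset.le_card_sdiff A' L
    omega
  obtain ⟨B, hB, hBc'⟩ := Finset.exists_subset_card_eq hBc
  have eA : Fin a ≃ A' := (Finset.equivFinOfCardEq hAc).symm
  have eB : Fin b ≃ B := (Finset.equivFinOfCardEq hBc').symm
  have hadj : ∀ i j, G.Adj (eA i).1 (eB j).1 := by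
    intro i j
    have h6 := mem_sdiff.1 (hB (eB j).2)
    have hne : (eB j).1 ≠ (eA i).1 := by
      intro h7
      apply h6.2
      rw [h7]
      exact (eA i).2
    exact h _ (hA' (eA i).2) _ h6.1 hne
  intro hfree
  apply hfree
  refine ⟨⟨⟨Sum.elim (fun i => (eA i).1) (fun j => (eB j).1), ?_⟩, ?_⟩⟩
  · rintro (i | i) (j | j) hij
    · simp at hij
    · exact hadj i j
    · exact (hadj j i).symm
    · simp at hij
  · rintro (i | i) (j | j) hij
    · have h8 : (eA i).1 = (eA j).1 := hij
      rw [eA.injective (Subtype.ext h8)]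
    · have h8 : (eA i).1 = (eB j).1 := hij
      exact absurd (h8 ▸ (eA i).2) (mem_sdiff.1 (hB (eB j).2)).2
    · have h8 : (eB i).1 = (eA j).1 := hij
      exact absurd (h8 ▸ (eA j).2) (mem_sdiff.1 (hB (eB i).2)).2
    · have h8 : (eB i).1 = (eB j).1 := hij
      rw [eB.injective (Subtype.ext h8)]

lemma line_injective {s : ℕ} (y v : Fin s → F) (hv : v ≠ 0) :
    Function.Injective (fun τ : F => y + τ • v) := by
  intro τ τ' h1
  have h2 : τ • v = τ' • v := add_left_cancel h1
  have h3 : (τ - τ') • v = 0 := by rw [sub_smul, h2, sub_self]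
  rcases smul_eq_zero.1 h3 with h | h
  · exact sub_eq_zero.1 h
  · exact absurd h hv

/-- a polynomial of degree at most `e` which does not vanish at a point of a line has at most `e`
zeros on the line -/
lemma card_line_zeros [Fintype F] [DecidableEq F] {s e : ℕ} (g : MvPolynomial (Fin s) F)
    (hg : g.totalDegree ≤ e) (y v : Fin s → F) (hy : eval y g ≠ 0) :
    (univ.filter (fun τ : F => eval (y + τ • v) g = 0)).card ≤ e := by
  classical
  set P : Polynomial F := (lsub s y g).map (eval v) with hP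
  have hext : (Pool.Agent.H534R2.AKtt.ext v : Fin s → F) = v := by
    funext i
    simp [Pool.Agent.H534R2.AKtt.ext]
  have hev : ∀ τ : F, P.eval τ = eval (y + τ • v) g := by
    intro τ
    rw [hP, lsub_eval, ext_line, hext]
  have hP0 : P ≠ 0 := by
    intro h
    apply hy
    have h1 := hev 0
    rw [h, Polynomial.eval_zero, zero_smul, add_zero] at h1
    exact h1.symm
  have hdeg : P.natDegree ≤ e :=
    (Polynomial.natDegree_map_le).trans ((lsub_natDegree y g).trans hg)
  refine le_trans (card_le_card (t := P.roots.toFinset) ?_) ?_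
  · intro τ hτ
    rw [Multiset.mem_toFinset, Polynomial.mem_roots hP0, Polynomial.IsRoot.def, hev]
    exact (mem_filter.1 hτ).2
  · exact (Multiset.toFinset_card_le _).trans ((Polynomial.card_roots' P).trans hdeg)

/-- few neighbourhoods contain a given line -/
lemma card_nbhd_line [Fintype F] [DecidableEq F] {s a b e : ℕ}
    (ha : 1 ≤ a) (hq : a + b + e ≤ Fintype.card F) (g : MvPolynomial (Fin s) F)
    (hg : g.totalDegree ≤ e) (G : SimpleGraph {y : Fin s → F // eval y g ≠ 0})
    (N : {y : Fin s → F // eval y g ≠ 0} → (Fin s → F) → Prop) [∀ x y, Decidable (N x y)]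
    (hG : ∀ x y, y ≠ x → (G.Adj x y ↔ N x y.1))
    (hfree : (completeBipartiteGraph (Fin a) (Fin b)).Free G)
    (y : Fin s → F) (hy : eval y g ≠ 0) (v : Fin s → F) (hv : v ≠ 0) :
    (univ.filter (fun x => ∀ τ : F, N x (y + τ • v))).card ≤ a - 1 := by
  classical
  by_contra hcon
  have hA : a ≤ (univ.filter (fun x => ∀ τ : F, N x (y + τ • v))).card := by omega
  set T : Finset F := univ.filter (fun τ : F => eval (y + τ • v) g ≠ 0) with hT
  have hTc : Fintype.card F - e ≤ T.card := by
    have h1 := Finset.card_filter_add_card_filter_not (s := (univ : Finset F))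
      (fun τ : F => eval (y + τ • v) g = 0)
    rw [card_univ] at h1
    have h2 := card_line_zeros g hg y v hy
    have h3 : T.card = (univ.filter (fun τ : F => ¬ eval (y + τ • v) g = 0)).card := rfl
    omega
  set L' : Finset (Fin s → F) := T.image (fun τ : F => y + τ • v) with hL'
  have hL'c : L'.card = T.card := card_image_of_injective _ (line_injective y v hv)
  set L : Finset {y : Fin s → F // eval y g ≠ 0} := L'.subtype (fun z => eval z g ≠ 0) with hL
  have hLc : L.card = T.card := by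
    rw [hL, Finset.card_subtype, ← hL'c]
    congr 1
    apply Finset.filter_true_of_mem
    intro z hz
    obtain ⟨τ, hτ, rfl⟩ := mem_image.1 hz
    exact (mem_filter.1 hτ).2
  refine not_free_of_sets G _ L hA (by omega) ?_ hfree
  intro x hx z hz hzx
  rw [hG x z hzx]
  have h5 := (mem_filter.1 hx).2
  rw [hL, Finset.mem_subtype] at hz
  obtain ⟨τ, _, hτ⟩ := mem_image.1 hz
  rw [← hτ]
  exact h5 τ

/-- the general bound -/
lemma edges_le_on [Fintype F] [DecidableEq F] {s a b e B : ℕ}
    (ha : 1 ≤ a) (hq : a + b + e ≤ Fintype.card F) (g : MvPolynomial (Fin s) F)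
    (hg : g.totalDegree ≤ e) (G : SimpleGraph {y : Fin s → F // eval y g ≠ 0})
    [DecidableRel G.Adj]
    (N : {y : Fin s → F // eval y g ≠ 0} → (Fin s → F) → Prop) [∀ x y, Decidable (N x y)]
    (hG : ∀ x y, y ≠ x → (G.Adj x y ↔ N x y.1))
    (hfree : (completeBipartiteGraph (Fin a) (Fin b)).Free G)
    (Dy : (Fin s → F) → Finset (Fin s → F))
    (h0 : ∀ y, ∀ v ∈ Dy y, v ≠ 0) (hsc : ∀ y, ∀ v ∈ Dy y, ∀ c : F, c ≠ 0 → c • v ∈ Dy y)
    (hdir : ∀ x y, N x y → ∃ v ∈ Dy y, ∀ τ : F, N x (y + τ • v))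
    (hB : ∀ y, (Dy y).card ≤ B) :
    Fintype.card F * G.edgeFinset.card ≤ (a - 1) * (Fintype.card F ^ s * B) := by
  classical
  set V : Finset (Fin s → F) := univ.filter (fun y => eval y g ≠ 0) with hV
  have h1 := count_lines_on N V Dy h0 hsc hdir (a - 1) B (by
    intro y hy v hv
    exact card_nbhd_line ha hq g hg G N hG hfree y (mem_filter.1 hy).2 v hv) hB
  have h2 := card_adj_le G (fun x y => N x y.1) (fun x y hxy => (hG x y hxy.ne').1 hxy)
  have h2' : (univ.filter (fun p : {y : Fin s → F // eval y g ≠ 0} ×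
      {y : Fin s → F // eval y g ≠ 0} => N p.1 p.2.1)).card ≤
      (univ.filter (fun p : {y : Fin s → F // eval y g ≠ 0} × (Fin s → F) =>
        p.2 ∈ V ∧ N p.1 p.2)).card := by
    apply Finset.card_le_card_of_injOn (fun p => (p.1, p.2.1))
    · intro p hp
      have hp' := (mem_filter.1 (mem_coe.1 hp)).2
      rw [mem_coe, mem_filter]
      exact ⟨mem_univ _, mem_filter.2 ⟨mem_univ _, p.2.2⟩, hp'⟩
    · intro p _ p' _ hpp
      have h3 := Prod.mk.inj hpp
      exact Prod.ext h3.1 (Subtype.ext h3.2)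
  have h3 : 1 < Fintype.card F := Fintype.one_lt_card
  have h4 : Fintype.card F ≤ (Fintype.card F - 1) * 2 := by omega
  have hVc : V.card ≤ Fintype.card F ^ s := by
    refine (card_le_univ V).trans ?_
    rw [Fintype.card_fun, Fintype.card_fin]
  calc Fintype.card F * G.edgeFinset.card
      ≤ (Fintype.card F - 1) * 2 * G.edgeFinset.card := Nat.mul_le_mul_right _ h4
    _ = (Fintype.card F - 1) * (2 * G.edgeFinset.card) := by ring
    _ ≤ (a - 1) * (V.card * B) := (Nat.mul_le_mul_left _ (h2.trans h2')).trans h1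
    _ ≤ _ := Nat.mul_le_mul_left _ (Nat.mul_le_mul_right _ hVc)

/-- `Z` is a union of zero sets of finite systems of polynomials `f` with
`∑ deg (f i) (deg (f i) + 1) / 2 ≤ D`. -/
def LowDegree {m : ℕ} (D : ℕ) (Z : Set (Fin m → F)) : Prop :=
  ∀ z ∈ Z, ∃ (r : ℕ) (f : Fin r → MvPolynomial (Fin m) F),
    ∑ i, (f i).totalDegree * ((f i).totalDegree + 1) / 2 ≤ D ∧
    (∀ i, eval z (f i) = 0) ∧ ∀ w, (∀ i, eval w (f i) = 0) → w ∈ Z

lemma LowDegree.line [Fintype F] {s D M : ℕ} {Z : Set (Fin s → F)} (hZ : LowDegree D Z)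
    (hM : D < M) {y : Fin s → F} (hy : y ∈ Z) :
    ∃ b : Fin M → F, b ≠ 0 ∧ ∀ τ : F, y + τ • ext b ∈ Z := by
  obtain ⟨r, f, hf, hfy, hfZ⟩ := hZ y hy
  obtain ⟨b, hb, hline⟩ := exists_line_sys (M := M) y f (fun i => (f i).totalDegree)
    (fun i => le_rfl) (lt_of_le_of_lt hf hM) hfy
  exact ⟨b, hb, fun τ => hfZ _ (hline τ)⟩

/-- the bound for unions of systems -/
lemma bound_low [Fintype F] [DecidableEq F] {s a b e D : ℕ}
    (ha : 1 ≤ a) (hq : a + b + e ≤ Fintype.card F) (g : MvPolynomial (Fin s) F)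
    (hg : g.totalDegree ≤ e) (G : SimpleGraph {y : Fin s → F // eval y g ≠ 0})
    [DecidableRel G.Adj]
    (Z : {y : Fin s → F // eval y g ≠ 0} → Set (Fin s → F))
    (hZ : ∀ x, LowDegree D (Z x))
    (hG : ∀ x y, y ≠ x → (G.Adj x y ↔ y.1 ∈ Z x))
    (hfree : (completeBipartiteGraph (Fin a) (Fin b)).Free G)
    (hs : D < s) :
    G.edgeFinset.card ≤ (a - 1) * Fintype.card F ^ (s + D) := by
  classical
  have key := edges_le_on (B := Fintype.card F ^ (D + 1)) ha hq g hg G
    (fun x y => y ∈ Z x) hG hfree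
    (fun _ => (univ.filter (fun b : Fin (D + 1) → F => b ≠ 0)).image ext) ?_ ?_ ?_ ?_
  · have hpos : 0 < Fintype.card F := Fintype.card_pos
    apply Nat.le_of_mul_le_mul_left _ hpos
    calc _ ≤ _ := key
      _ = Fintype.card F * ((a - 1) * Fintype.card F ^ (s + D)) := by ring
  · intro y v hv
    obtain ⟨b, hb, rfl⟩ := mem_image.1 hv
    exact ext_ne_zero hs (mem_filter.1 hb).2
  · intro y v hv c hc
    obtain ⟨b, hb, rfl⟩ := mem_image.1 hv
    refine mem_image.2 ⟨c • b, mem_filter.2 ⟨mem_univ _, ?_⟩, ext_smul c b⟩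
    exact smul_ne_zero hc (mem_filter.1 hb).2
  · intro x y hxy
    obtain ⟨b, hb, hline⟩ := (hZ x).line (Nat.lt_succ_self D) hxy
    exact ⟨ext b, mem_image.2 ⟨b, mem_filter.2 ⟨mem_univ _, hb⟩, rfl⟩, hline⟩
  · intro y
    refine card_image_le.trans ((card_filter_le _ _).trans ?_)
    rw [card_univ, Fintype.card_fun, Fintype.card_fin]

/-- translates: no edges at all -/
lemma cayley [Fintype F] {s a b D : ℕ}
    (hq : a + b ≤ Fintype.card F) (G : SimpleGraph (Fin s → F))
    (Z : Set (Fin s → F)) (hZ : LowDegree D Z)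
    (φ : (Fin s → F) → (Fin s → F))
    (hG : ∀ x y, y ≠ x → (G.Adj x y ↔ φ x + y ∈ Z))
    (hfree : (completeBipartiteGraph (Fin a) (Fin b)).Free G)
    (hs : D < s) : Z = ∅ := by
  classical
  rw [Set.eq_empty_iff_forall_notMem]
  intro z hz
  obtain ⟨c, hc, hline⟩ := hZ.line (Nat.lt_succ_self D) hz
  set v : Fin s → F := ext c with hv
  have hv0 : v ≠ 0 := ext_ne_zero hs hc
  -- pigeonhole
  have hcount : ∑ w : Fin s → F, (univ.filter (fun x : Fin s → F => ∃ τ : F,
      φ x = w + τ • v)).card = ∑ _w : Fin s → F, Fintype.card F := by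
    have h1 : ∑ w : Fin s → F, (univ.filter (fun x : Fin s → F => ∃ τ : F,
        φ x = w + τ • v)).card = ∑ x : Fin s → F, (univ.filter (fun w : Fin s → F => ∃ τ : F,
        φ x = w + τ • v)).card := by
      simp only [card_filter]
      rw [sum_comm]
    rw [h1]
    apply Finset.sum_congr rfl
    intro x _
    have h2 : (univ.filter (fun w : Fin s → F => ∃ τ : F, φ x = w + τ • v)) =
        univ.image (fun τ : F => φ x + τ • v) := by
      ext w
      simp only [mem_filter, mem_univ, true_and, mem_image]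
      constructor
      · rintro ⟨τ, hτ⟩
        exact ⟨-τ, by rw [hτ]; simp⟩
      · rintro ⟨τ, hτ⟩
        exact ⟨-τ, by rw [← hτ]; simp⟩
    rw [h2, card_image_of_injective _ (line_injective _ v hv0), card_univ]
  obtain ⟨w, _, hw⟩ := Finset.exists_le_of_sum_le (s := (univ : Finset (Fin s → F)))
    ⟨0, mem_univ _⟩ (le_of_eq hcount.symm)
  refine not_free_of_sets G (univ.filter (fun x : Fin s → F => ∃ τ : F, φ x = w + τ • v))
    (univ.image (fun τ : F => (z - w) + τ • v)) (by omega) ?_ ?_ hfree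
  · rw [card_image_of_injective _ (line_injective _ v hv0), card_univ]
    exact hq
  · intro x hx y hy hyx
    rw [hG x y hyx]
    obtain ⟨τ, hτ⟩ := (mem_filter.1 hx).2
    obtain ⟨σ, _, hσ⟩ := mem_image.1 hy
    have h5 := hline (τ + σ)
    have h6 : z + (τ + σ) • v = φ x + y := by
      rw [hτ, ← hσ, add_smul]
      abel
    rwa [h6] at h5

end Pool.Agent.H444R3.Deg
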