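import Mathlib
import Pool.Agent.H444R3.Deg1

/-!
# Degree barrier for algebraic `K_{a,b}`-free graphs: one equation with a common leading form, and
the asymptotic form
-/

namespace Pool.Agent.H444R3.Deg

open MvPolynomial Finset
open Pool.Agent.H534R2.AKtt

variable {F : Type} [Field F]

/-- `Z` is a union of zero sets of single polynomials which differ from `g₀` by polynomials of
degree less than `d`. -/
def CommonLead {m : ℕ} (d : ℕ) (g₀ : MvPolynomial (Fin m) F) (Z : Set (Fin m → F)) : Prop :=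
  ∀ z ∈ Z, ∃ f : MvPolynomial (Fin m) F, (f - g₀).totalDegree < d ∧ eval z f = 0 ∧
    ∀ w, eval w f = 0 → w ∈ Z

/-- One equation, common leading form. -/
lemma bound_lead [Fintype F] [DecidableEq F] {s a b e d : ℕ}
    (ha : 1 ≤ a) (hq : a + b + e ≤ Fintype.card F) (g : MvPolynomial (Fin s) F)
    (hg : g.totalDegree ≤ e) (G : SimpleGraph {y : Fin s → F // eval y g ≠ 0})
    [DecidableRel G.Adj]
    (g₀ : MvPolynomial (Fin s) F) (hd : g₀.totalDegree ≤ d)
    (Z : {y : Fin s → F // eval y g ≠ 0} → Set (Fin s → F))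
    (hZ : ∀ x, CommonLead d g₀ (Z x))
    (hG : ∀ x y, y ≠ x → (G.Adj x y ↔ y.1 ∈ Z x))
    (hfree : (completeBipartiteGraph (Fin a) (Fin b)).Free G) (hs : d * (d + 1) / 2 < s) :
    Fintype.card F * G.edgeFinset.card ≤
      (a - 1) * d * Fintype.card F ^ (s + d * (d + 1) / 2) := by
  classical
  rcases Nat.eq_zero_or_pos d with hd0 | hd1
  · -- no edges
    have h1 : G.edgeFinset = ∅ := by
      rw [Finset.eq_empty_iff_forall_notMem]
      intro z
      induction z using Sym2.ind with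
      | _ x y =>
        intro hz
        rw [SimpleGraph.mem_edgeFinset, SimpleGraph.mem_edgeSet] at hz
        obtain ⟨f, hf, _⟩ := hZ x y.1 ((hG x y hz.ne').1 hz)
        omega
    rw [h1, card_empty, mul_zero]
    exact Nat.zero_le _
  set D := d * (d + 1) / 2 with hD
  have hDd : d ≤ D := by
    have h1 : d * 2 ≤ d * (d + 1) := Nat.mul_le_mul_left _ (by omega)
    omega
  have hDd' : ∑ j ∈ Icc 1 (d - 1), j = D - d := by
    have h1 : ∑ j ∈ Icc 1 d, j = D := sumIcc d
    have h2 : d = (d - 1) + 1 := by omega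
    have h3 : ∑ j ∈ Icc 1 ((d - 1) + 1), j = ∑ j ∈ Icc 1 (d - 1), j + ((d - 1) + 1) :=
      Finset.sum_Icc_succ_top (by omega) _
    rw [← h2, h1] at h3
    omega
  set M' := D - d + 1 with hM'
  have hM'D : M' ≤ D := by omega
  have hpos : 0 < Fintype.card F := Fintype.card_pos
  -- leading coefficients agree
  have hcoef : ∀ (M : ℕ) (f : MvPolynomial (Fin s) F) (_ : (f - g₀).totalDegree < d)
      (y : Fin s → F), (lsub M y f).coeff d = (lsub M y g₀).coeff d := by
    intro M f hf y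
    have h1 : (lsub M y (f - g₀)).coeff d = 0 :=
      Polynomial.coeff_eq_zero_of_natDegree_lt (lt_of_le_of_lt (lsub_natDegree y _) hf)
    rw [map_sub, Polynomial.coeff_sub] at h1
    exact sub_eq_zero.1 h1
  have hdeg : ∀ (f : MvPolynomial (Fin s) F) (_ : (f - g₀).totalDegree < d),
      f.totalDegree ≤ d := by
    intro f hf
    have h1 : f = (f - g₀) + g₀ := by ring
    rw [h1]
    exact (totalDegree_add _ _).trans (max_le hf.le hd)
  let D1 : (Fin s → F) → Finset (Fin s → F) := fun y =>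
    (univ.filter (fun b : Fin (D + 1) → F => b ≠ 0 ∧
      eval b ((lsub (D + 1) y g₀).coeff d) = 0)).image ext
  let D2 : Finset (Fin s → F) := (univ.filter (fun b : Fin M' → F => b ≠ 0)).image ext
  have key := edges_le_on (B := d * Fintype.card F ^ D) ha hq g hg G
    (fun x y => y ∈ Z x) hG hfree
    (fun y => if (lsub (D + 1) y g₀).coeff d = 0 then D2 else D1 y) ?_ ?_ ?_ ?_
  · calc _ ≤ _ := key
      _ = _ := by ring
  · intro y v hv
    by_cases hy : (lsub (D + 1) y g₀).coeff d = 0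
    · rw [if_pos hy] at hv
      obtain ⟨b, hb, rfl⟩ := mem_image.1 hv
      exact ext_ne_zero (by omega) (mem_filter.1 hb).2
    · rw [if_neg hy] at hv
      obtain ⟨b, hb, rfl⟩ := mem_image.1 hv
      exact ext_ne_zero hs (mem_filter.1 hb).2.1
  · intro y v hv c hc
    by_cases hy : (lsub (D + 1) y g₀).coeff d = 0
    · rw [if_pos hy] at hv ⊢
      obtain ⟨b, hb, rfl⟩ := mem_image.1 hv
      refine mem_image.2 ⟨c • b, mem_filter.2 ⟨mem_univ _, ?_⟩, ext_smul c b⟩
      exact smul_ne_zero hc (mem_filter.1 hb).2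
    · rw [if_neg hy] at hv ⊢
      obtain ⟨b, hb, rfl⟩ := mem_image.1 hv
      refine mem_image.2 ⟨c • b, mem_filter.2 ⟨mem_univ _, ?_, ?_⟩, ext_smul c b⟩
      · exact smul_ne_zero hc (mem_filter.1 hb).2.1
      · rw [lsub_coeff_scale, (mem_filter.1 hb).2.2, zero_mul]
  · intro x y hxy
    obtain ⟨f, hf, hfy, hfZ⟩ := hZ x y hxy
    by_cases hy : (lsub (D + 1) y g₀).coeff d = 0
    · simp only [if_pos hy]
      have hy' : (lsub M' y g₀).coeff d = 0 := by
        rw [lsub_spec (by omega : M' ≤ D + 1) y g₀, Polynomial.coeff_map, hy, map_zero]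
      obtain ⟨b, hb, _, hline⟩ := exists_line (M := M') y f (Icc 1 (d - 1))
        (fun j hj hj1 => by
          rw [mem_Icc] at hj
          rcases Nat.lt_or_ge d j with h | h
          · exact coeff_big y f (hdeg f hf) h
          · have h5 : j = d := by omega
            rw [h5, hcoef M' f hf, hy']) (by rw [hDd']; omega) hfy
      refine ⟨ext b, mem_image.2 ⟨b, mem_filter.2 ⟨mem_univ _, hb⟩, rfl⟩, fun τ => hfZ _ ?_⟩
      rw [← ext_line]
      exact hline τ
    · simp only [if_neg hy]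
      obtain ⟨b, hb, hall, hline⟩ := exists_line (M := D + 1) y f (Icc 1 d)
        (fun j hj hj1 => by
          apply coeff_big y f (hdeg f hf)
          rw [mem_Icc] at hj
          omega) (by rw [sumIcc]; omega) hfy
      refine ⟨ext b, mem_image.2 ⟨b, mem_filter.2 ⟨mem_univ _, hb, ?_⟩, rfl⟩,
        fun τ => hfZ _ ?_⟩
      · rw [← hcoef (D + 1) f hf y]
        exact hall d
      · rw [← ext_line]
        exact hline τ
  · intro y
    by_cases hy : (lsub (D + 1) y g₀).coeff d = 0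
    · simp only [if_pos hy]
      refine card_image_le.trans ((card_filter_le _ _).trans ?_)
      rw [card_univ, Fintype.card_fun, Fintype.card_fin]
      calc Fintype.card F ^ M' ≤ Fintype.card F ^ D := Nat.pow_le_pow_right hpos hM'D
        _ = 1 * Fintype.card F ^ D := (one_mul _).symm
        _ ≤ d * Fintype.card F ^ D := Nat.mul_le_mul_right _ hd1
    · simp only [if_neg hy]
      refine card_image_le.trans ?_
      refine le_trans (card_le_card ?_) (card_zeros ((lsub (D + 1) y g₀).coeff d) hy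
        (lsub_totalDegree y g₀ d))
      intro b hb
      exact mem_filter.2 ⟨mem_univ _, (mem_filter.1 hb).2.2⟩

/-- the complement of a hypersurface of small degree is large -/
lemma card_compl [Fintype F] [DecidableEq F] {s e : ℕ} (g : MvPolynomial (Fin s) F)
    (hg0 : g ≠ 0) (hg : g.totalDegree ≤ e) (hq : 2 * e ≤ Fintype.card F) :
    Fintype.card F ^ s ≤ 2 * Nat.card {y : Fin s → F // eval y g ≠ 0} := by
  classical
  have h1 := Finset.card_filter_add_card_filter_not (s := (univ : Finset (Fin s → F)))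
    (fun y => eval y g = 0)
  rw [card_univ, Fintype.card_fun, Fintype.card_fin] at h1
  have h2 : Nat.card {y : Fin s → F // eval y g ≠ 0} =
      (univ.filter (fun y : Fin s → F => ¬ eval y g = 0)).card := by
    rw [Nat.card_eq_fintype_card, Fintype.card_subtype]
  have h3 : 2 * (univ.filter (fun y : Fin s → F => eval y g = 0)).card ≤ Fintype.card F ^ s := by
    rcases s with _ | n
    · have h4 : (univ.filter (fun y : Fin 0 → F => eval y g = 0)) = ∅ := by
        apply Finset.filter_eq_empty_iff.2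
        intro y _ hy
        apply hg0
        rw [MvPolynomial.eq_C_of_isEmpty g] at hy ⊢
        rw [eval_C] at hy
        rw [hy, C_0]
      rw [h4]
      simp
    · have h5 := card_zeros g hg0 hg
      calc 2 * (univ.filter (fun y : Fin (n + 1) → F => eval y g = 0)).card
          ≤ 2 * (e * Fintype.card F ^ n) := Nat.mul_le_mul_left _ h5
        _ = 2 * e * Fintype.card F ^ n := by ring
        _ ≤ Fintype.card F * Fintype.card F ^ n := Nat.mul_le_mul_right _ hq
        _ = Fintype.card F ^ (n + 1) := by ring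
  omega

/-- the analytic part of the asymptotic form -/
lemma asymp_aux (a K : ℕ) (ha : 1 ≤ a) (c : ℝ) (hc : 0 < c) :
    ∃ q₀ : ℕ, ∀ q : ℕ, q₀ ≤ q → ∀ m D n E : ℕ, q ^ m ≤ 2 * n →
      c * (n : ℝ) ^ (2 - 1 / (a : ℝ)) ≤ E → E ≤ K * q ^ (m + D) →
      (a - 1) * m ≤ a * D := by
  have ha0 : (0 : ℝ) < a := by exact_mod_cast ha
  -- q large: (a-1) * 4 / c < q ^ (1/a)
  obtain ⟨q₁, hq₁⟩ := exists_nat_gt (((K : ℝ) * 4 / c) ^ (a : ℝ))
  refine ⟨max q₁ 1, fun q hq m D n E hn hE1 hE2 => ?_⟩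
  have hq1 : 1 ≤ q := le_trans (le_max_right _ _) hq
  have hqq : ((K : ℝ) * 4 / c) ^ (a : ℝ) < q := lt_of_lt_of_le hq₁
    (by exact_mod_cast le_trans (le_max_left _ _) hq)
  by_contra hcon
  push Not at hcon
  have hcon' : a * D + 1 ≤ (a - 1) * m := hcon
  have hq0 : (0 : ℝ) < q := by exact_mod_cast hq1
  have hq1' : (1 : ℝ) ≤ q := by exact_mod_cast hq1
  have hexp : (0 : ℝ) ≤ 2 - 1 / (a : ℝ) := by
    have h1 : 1 / (a : ℝ) ≤ 1 := by
      rw [div_le_one ha0]
      exact_mod_cast ha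
    linarith
  have hexp2 : 2 - 1 / (a : ℝ) ≤ 2 := by
    have : 0 ≤ 1 / (a : ℝ) := by positivity
    linarith
  have hn' : ((q : ℝ) ^ m) / 2 ≤ n := by
    have : ((q ^ m : ℕ) : ℝ) ≤ ((2 * n : ℕ) : ℝ) := by exact_mod_cast hn
    push_cast at this
    linarith
  have h1 : (((q : ℝ) ^ m) / 2) ^ (2 - 1 / (a : ℝ)) ≤ (n : ℝ) ^ (2 - 1 / (a : ℝ)) :=
    Real.rpow_le_rpow (by positivity) hn' hexp
  have h2 : (((q : ℝ) ^ m)) ^ (2 - 1 / (a : ℝ)) / 4 ≤ (((q : ℝ) ^ m) / 2) ^ (2 - 1 / (a : ℝ)) := by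
    rw [Real.div_rpow (by positivity) (by norm_num)]
    apply div_le_div_of_nonneg_left (by positivity) (by positivity)
    calc (2 : ℝ) ^ (2 - 1 / (a : ℝ)) ≤ (2 : ℝ) ^ (2 : ℝ) :=
          Real.rpow_le_rpow_of_exponent_le (by norm_num) hexp2
      _ = 4 := by norm_num
  have h3 : ((q : ℝ) ^ m) ^ (2 - 1 / (a : ℝ)) = (q : ℝ) ^ ((m : ℝ) * (2 - 1 / (a : ℝ))) := by
    rw [← Real.rpow_natCast, ← Real.rpow_mul hq0.le]
  have hE2' : (E : ℝ) ≤ (K : ℝ) * (q : ℝ) ^ ((m : ℝ) + D) := by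
    have h4 : (E : ℝ) ≤ ((K * q ^ (m + D) : ℕ) : ℝ) := by exact_mod_cast hE2
    refine h4.trans (le_of_eq ?_)
    push_cast
    rw [← Nat.cast_add, Real.rpow_natCast]
  -- compare exponents
  have h6 : (m : ℝ) + D + 1 / a ≤ (m : ℝ) * (2 - 1 / (a : ℝ)) := by
    have h7 : (a : ℝ) * D + 1 ≤ ((a : ℝ) - 1) * m := by
      have h8 : ((a * D + 1 : ℕ) : ℝ) ≤ (((a - 1) * m : ℕ) : ℝ) := by exact_mod_cast hcon'
      push_cast [Nat.cast_sub ha] at h8
      exact h8
    have h9 : (D : ℝ) + 1 / a = (a * D + 1) / a := by field_simp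
    have h10 : (m : ℝ) * (2 - 1 / (a : ℝ)) = m + ((a : ℝ) - 1) * m / a := by
      field_simp
      ring
    rw [h10, add_assoc, h9]
    have h11 : ((a : ℝ) * D + 1) / a ≤ ((a : ℝ) - 1) * m / a :=
      div_le_div_of_nonneg_right h7 ha0.le
    linarith
  have h12 : (q : ℝ) ^ ((m : ℝ) + D + 1 / a) ≤ (q : ℝ) ^ ((m : ℝ) * (2 - 1 / (a : ℝ))) :=
    Real.rpow_le_rpow_of_exponent_le hq1' h6
  rw [Real.rpow_add hq0] at h12
  set Z := (q : ℝ) ^ ((m : ℝ) + D) with hZ
  have hZ0 : 0 < Z := Real.rpow_pos_of_pos hq0 _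
  -- c/4 * Z * q^(1/a) ≤ a Z
  have h13 : c / 4 * (Z * (q : ℝ) ^ (1 / (a : ℝ))) ≤ K * Z := by
    calc c / 4 * (Z * (q : ℝ) ^ (1 / (a : ℝ)))
        ≤ c / 4 * (q : ℝ) ^ ((m : ℝ) * (2 - 1 / (a : ℝ))) :=
          mul_le_mul_of_nonneg_left h12 (by positivity)
      _ = c * (((q : ℝ) ^ m) ^ (2 - 1 / (a : ℝ)) / 4) := by rw [h3]; ring
      _ ≤ c * (n : ℝ) ^ (2 - 1 / (a : ℝ)) := mul_le_mul_of_nonneg_left (h2.trans h1) hc.le
      _ ≤ E := hE1
      _ ≤ K * Z := hE2'
  have h14 : (q : ℝ) ^ (1 / (a : ℝ)) ≤ K * 4 / c := by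
    rw [le_div_iff₀ hc]
    have h15 : Z * (c * (q : ℝ) ^ (1 / (a : ℝ))) ≤ Z * (K * 4) := by
      have := mul_le_mul_of_nonneg_left h13 (by norm_num : (0 : ℝ) ≤ 4)
      linarith
    have h16 := le_of_mul_le_mul_left h15 hZ0
    linarith
  have h17 : (q : ℝ) ≤ (K * 4 / c) ^ (a : ℝ) := by
    have h18 := Real.rpow_le_rpow (by positivity) h14 ha0.le
    rw [← Real.rpow_mul hq0.le, one_div, inv_mul_cancel₀ ha0.ne', Real.rpow_one] at h18
    exact h18
  linarith

end Pool.Agent.H444R3.Deg
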