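import Pool.Agent.H444R3.GapSpec

set_option autoImplicit false

/-!
Bipartite graphs of relations and their gaps.
-/

namespace Pool.Agent.H444R3.GapDefs

open Finset

/-- the bipartite graph of a relation -/
def bip {α β : Type} (R : α → β → Prop) : SimpleGraph (α ⊕ β) where
  Adj x y := (∃ a b, x = Sum.inl a ∧ y = Sum.inr b ∧ R a b) ∨
    (∃ a b, x = Sum.inr b ∧ y = Sum.inl a ∧ R a b)
  symm := ⟨by
    rintro x y (⟨a, b, h1, h2, h3⟩ | ⟨a, b, h1, h2, h3⟩)
    · exact Or.inr ⟨a, b, h2, h1, h3⟩
    · exact Or.inl ⟨a, b, h2, h1, h3⟩⟩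
  loopless := ⟨by
    rintro x (⟨a, b, h1, h2, h3⟩ | ⟨a, b, h1, h2, h3⟩)
    · rw [h1] at h2; cases h2
    · rw [h1] at h2; cases h2⟩

variable {α β : Type} [Fintype α] [Fintype β] (R : α → β → Prop)

lemma bip_lr (a : α) (b : β) : (bip R).Adj (Sum.inl a) (Sum.inr b) ↔ R a b := by
  constructor
  · rintro (⟨a', b', h1, h2, h3⟩ | ⟨a', b', h1, h2, h3⟩)
    · cases h1; cases h2; exact h3
    · cases h1
  · intro h
    exact Or.inl ⟨a, b, rfl, rfl, h⟩

lemma bip_rl (a : α) (b : β) : (bip R).Adj (Sum.inr b) (Sum.inl a) ↔ R a b := by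
  rw [SimpleGraph.adj_comm, bip_lr]

lemma bip_ll (a a' : α) : ¬ (bip R).Adj (Sum.inl a) (Sum.inl a') := by
  rintro (⟨a', b', h1, h2, h3⟩ | ⟨a', b', h1, h2, h3⟩)
  · cases h2
  · cases h1

lemma bip_rr (b b' : β) : ¬ (bip R).Adj (Sum.inr b) (Sum.inr b') := by
  rintro (⟨a', b', h1, h2, h3⟩ | ⟨a', b', h1, h2, h3⟩)
  · cases h1
  · cases h2

open Classical in
lemma sum_nbrs_inl (a : α) (f : α ⊕ β → ℝ) :
    ∑ w ∈ nbrs (bip R) (Sum.inl a), f w = ∑ b, if R a b then f (Sum.inr b) else 0 := by
  unfold nbrs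
  rw [Finset.sum_filter, Fintype.sum_sum_type]
  simp only [bip_ll, bip_lr, if_false, Finset.sum_const_zero, zero_add]

open Classical in
lemma sum_nbrs_inr (b : β) (f : α ⊕ β → ℝ) :
    ∑ w ∈ nbrs (bip R) (Sum.inr b), f w = ∑ a, if R a b then f (Sum.inl a) else 0 := by
  unfold nbrs
  rw [Finset.sum_filter, Fintype.sum_sum_type]
  simp only [bip_rr, bip_rl, if_false, Finset.sum_const_zero, add_zero]

open Classical in
lemma card_nbrs_inl (a : α) :
    (nbrs (bip R) (Sum.inl a)).card = (univ.filter (fun b => R a b)).card := by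
  have h := sum_nbrs_inl R a (fun _ => 1)
  simp only [Finset.sum_const, nsmul_eq_mul, mul_one, Finset.sum_boole] at h
  exact_mod_cast h

open Classical in
lemma card_nbrs_inr (b : β) :
    (nbrs (bip R) (Sum.inr b)).card = (univ.filter (fun a => R a b)).card := by
  have h := sum_nbrs_inr R b (fun _ => 1)
  simp only [Finset.sum_const, nsmul_eq_mul, mul_one, Finset.sum_boole] at h
  exact_mod_cast h

lemma bip_reach_two {a a' : α} {b : β} (h : R a b) (h' : R a' b) :
    (bip R).Reachable (Sum.inl a) (Sum.inl a') :=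
  ((bip_lr R a b).2 h).reachable.trans ((bip_rl R a' b).2 h').reachable

lemma bip_connected [Nonempty α] (h : ∀ a a' : α, (bip R).Reachable (Sum.inl a) (Sum.inl a'))
    (hb : ∀ b : β, ∃ a, R a b) : (bip R).Connected := by
  haveI : Nonempty (α ⊕ β) := ⟨Sum.inl (Classical.arbitrary α)⟩
  have h1 : ∀ x : α ⊕ β, ∃ a : α, (bip R).Reachable x (Sum.inl a) := by
    rintro (a | b)
    · exact ⟨a, SimpleGraph.Reachable.refl _⟩
    · obtain ⟨a, ha⟩ := hb b
      exact ⟨a, ((bip_rl R a b).2 ha).reachable⟩
  refine ⟨?_⟩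
  intro x y
  obtain ⟨a, ha⟩ := h1 x
  obtain ⟨a', ha'⟩ := h1 y
  exact ha.trans ((h a a').trans ha'.symm)

open Classical in
/-- two steps, starting from the left side -/
noncomputable def opL (g : α → ℝ) (a : α) : ℝ :=
  ∑ b, if R a b then (∑ a', if R a' b then g a' else 0) else 0

open Classical in
/-- two steps, starting from the right side -/
noncomputable def opR (g : β → ℝ) (b : β) : ℝ :=
  ∑ a, if R a b then (∑ b', if R a b' then g b' else 0) else 0

open Classical in
/-- **lower bound** for the gap of a regular bipartite graph -/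
theorem le_gap_bip {d : ℕ} (hd : 0 < d) [Nonempty α]
    (hα : ∀ a, (univ.filter (fun b => R a b)).card = d)
    (hβ : ∀ b, (univ.filter (fun a => R a b)).card = d) {c : ℝ}
    (H1 : ∀ (g : α → ℝ) (t : ℝ), g ≠ 0 → (∀ a, opL R g a = t * g a) → c ≤ t)
    (H2 : ∀ (g : β → ℝ) (t : ℝ), g ≠ 0 → (∀ b, opR R g b = t * g b) → c ≤ t) :
    Real.sqrt c / d ≤ gap (bip R) := by
  have hreg : ∀ v, (nbrs (bip R) v).card = d := by
    rintro (a | b)
    · rw [card_nbrs_inl]; exact hα a
    · rw [card_nbrs_inr]; exact hβ b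
  haveI : Nonempty (α ⊕ β) := ⟨Sum.inl (Classical.arbitrary α)⟩
  have hdpos : (0 : ℝ) < d := by exact_mod_cast hd
  apply le_gap
  · exact exists_eig _ (fun v => by rw [hreg v]; exact hd)
  · intro μ f hf h
    set θ : ℝ := d * (1 - μ) with hθ
    have h1 : ∀ v, ∑ w ∈ nbrs (bip R) v, f w = θ * f v := fun v =>
      (lap_reg (bip R) hd (hreg v) f μ).1 (h v)
    have hL : ∀ a, ∑ b, (if R a b then f (Sum.inr b) else 0) = θ * f (Sum.inl a) := by
      intro a; rw [← sum_nbrs_inl, h1]
    have hR : ∀ b, ∑ a, (if R a b then f (Sum.inl a) else 0) = θ * f (Sum.inr b) := by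
      intro b; rw [← sum_nbrs_inr, h1]
    have hc : c ≤ θ ^ 2 := by
      by_cases hl : (fun a => f (Sum.inl a)) = 0
      · have hr : (fun b => f (Sum.inr b)) ≠ 0 := by
          intro hr
          apply hf
          funext x
          rcases x with a | b
          · exact congrFun hl a
          · exact congrFun hr b
        apply H2 _ _ hr
        intro b
        unfold opR
        have : ∀ a, (if R a b then (∑ b', if R a b' then f (Sum.inr b') else 0) else 0) =
            θ * (if R a b then f (Sum.inl a) else 0) := by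
          intro a
          rw [hL a]
          split_ifs <;> simp
        simp only [this]
        rw [← Finset.mul_sum, hR]
        ring
      · apply H1 _ _ hl
        intro a
        unfold opL
        have : ∀ b, (if R a b then (∑ a', if R a' b then f (Sum.inl a') else 0) else 0) =
            θ * (if R a b then f (Sum.inr b) else 0) := by
          intro b
          rw [hR b]
          split_ifs <;> simp
        simp only [this]
        rw [← Finset.mul_sum, hL]
        ring
    have h2 : |μ - 1| = |θ| / d := by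
      rw [hθ, abs_mul, abs_of_pos hdpos, abs_sub_comm]
      field_simp
    rw [h2]
    have h3 : Real.sqrt c ≤ |θ| := by
      rw [← Real.sqrt_sq_eq_abs]
      exact Real.sqrt_le_sqrt hc
    gcongr

open Classical in
/-- **upper bound** for the gap of a regular bipartite graph -/
theorem gap_bip_le {d : ℕ} (hd : 0 < d)
    (hα : ∀ a, (univ.filter (fun b => R a b)).card = d)
    (hβ : ∀ b, (univ.filter (fun a => R a b)).card = d) {c : ℝ} (hc : 0 < c)
    {g : α → ℝ} (hg : g ≠ 0) (H : ∀ a, opL R g a = c * g a) :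
    gap (bip R) ≤ Real.sqrt c / d := by
  have hreg : ∀ v, (nbrs (bip R) v).card = d := by
    rintro (a | b)
    · rw [card_nbrs_inl]; exact hα a
    · rw [card_nbrs_inr]; exact hβ b
  have hdpos : (0 : ℝ) < d := by exact_mod_cast hd
  set s := Real.sqrt c with hs
  have hs0 : 0 < s := Real.sqrt_pos.2 hc
  have hss : s * s = c := Real.mul_self_sqrt hc.le
  set f : α ⊕ β → ℝ := Sum.elim (fun a => s * g a) (fun b => ∑ a', if R a' b then g a' else 0)
    with hf
  have hf0 : f ≠ 0 := by
    intro h0
    apply hg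
    funext a
    have := congrFun h0 (Sum.inl a)
    simp only [hf, Sum.elim_inl, Pi.zero_apply, mul_eq_zero, hs0.ne', false_or] at this
    exact this
  have h1 : ∀ v, lap (bip R) f v = (1 - s / d) * f v := by
    intro v
    rw [lap_reg (bip R) hd (hreg v)]
    have e1 : (d : ℝ) * (1 - (1 - s / d)) = s := by field_simp; ring
    rw [e1]
    rcases v with a | b
    · rw [sum_nbrs_inl]
      simp only [hf, Sum.elim_inl, Sum.elim_inr]
      have := H a
      unfold opL at this
      rw [this, ← mul_assoc, hss]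
    · rw [sum_nbrs_inr]
      simp only [hf, Sum.elim_inl, Sum.elim_inr]
      rw [Finset.mul_sum]
      apply Finset.sum_congr rfl
      intro a _
      split_ifs <;> simp
  have h2 := gap_le_of_eig _ hf0 h1
  have h3 : |1 - s / d - 1| = s / d := by
    rw [show 1 - s / d - 1 = -(s / d) by ring, abs_neg, abs_of_pos (by positivity)]
  rw [h3] at h2
  exact h2

end Pool.Agent.H444R3.GapDefs
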