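import Pool.Agent.H444R3.GapDesign
import Pool.Agent.H177R2.SD.Brc

set_option autoImplicit false

/-!
Symmetric designs from relations; the case of an even number of points modulo `8`.
-/

namespace Pool.Agent.H444R3.GapDefs

open Finset Matrix
open Pool.Agent.H177R2.SD

open Classical in
/-- a relation with the right counts gives a symmetric design -/
lemma symm_of_rel {α β : Type} [Fintype α] [Fintype β] (R : α → β → Prop) {v k l : ℕ}
    (hα : Fintype.card α = v) (hβ : Fintype.card β = v) (hkv : k < v)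
    (h1 : ∀ b, (univ.filter (fun a => R a b)).card = k)
    (h2 : ∀ a, (univ.filter (fun b => R a b)).card = k)
    (h3 : ∀ a a', a ≠ a' → (univ.filter (fun b => R a b ∧ R a' b)).card = l) :
    IsSymmetricDesign v k l := by
  let eα : Fin v ≃ α := (finCongr hα.symm).trans (Fintype.equivFin α).symm
  let eβ : Fin v ≃ β := (finCongr hβ.symm).trans (Fintype.equivFin β).symm
  refine ⟨hkv, k, fun i => univ.filter (fun x => R (eα x) (eβ i)), ?_, ?_, ?_⟩
  · intro i
    rw [← h1 (eβ i)]
    refine Finset.card_bij' (fun x _ => eα x) (fun a _ => eα.symm a) ?_ ?_ ?_ ?_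
    · intro x hx
      simpa using hx
    · intro a ha
      simpa using ha
    · intro x _; simp
    · intro a _; simp
  · intro x
    rw [← h2 (eα x)]
    refine Finset.card_bij' (fun i _ => eβ i) (fun b _ => eβ.symm b) ?_ ?_ ?_ ?_
    · intro i hi
      simpa using hi
    · intro b hb
      simpa using hb
    · intro i _; simp
    · intro b _; simp
  · intro x y hxy
    rw [← h3 (eα x) (eα y) (fun h => hxy (eα.injective h))]
    refine Finset.card_bij' (fun i _ => eβ i) (fun b _ => eβ.symm b) ?_ ?_ ?_ ?_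
    · intro i hi
      simpa using hi
    · intro b hb
      simpa using hb
    · intro i _; simp
    · intro b _; simp

/-- determinant of the incidence matrix of a symmetric design -/
lemma symm_det {v k l : ℕ} (hd : IsSymmetricDesign v k l) (hk : 0 < k) (hlk : l < k)
    (hpar : k * k = k + l * (v - 1)) :
    ∃ n : ℤ, n ^ 2 = ((k : ℤ) - l) ^ (v - 1) * k ^ 2 := by
  classical
  obtain ⟨hkv', r, Bl, hcard, hr, hl⟩ := hd
  set N : Matrix (Fin v) (Fin v) ℤ := Matrix.of fun x i => if x ∈ Bl i then 1 else 0 with hN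
  have hN' : ∀ x i, N x i = if x ∈ Bl i then 1 else 0 := fun x i => rfl
  have hrk : r = k := by
    have e1 : ∑ i, (Bl i).card = ∑ x, (univ.filter fun i => x ∈ Bl i).card := by
      have a1 : ∀ i, (Bl i).card = ∑ x, if x ∈ Bl i then 1 else 0 := by
        intro i
        rw [← Finset.card_filter]
        congr 1
        ext x
        simp
      have a2 : ∀ x, (univ.filter fun i => x ∈ Bl i).card = ∑ i, if x ∈ Bl i then 1 else 0 := by
        intro x
        rw [Finset.card_filter]
      rw [Finset.sum_congr rfl (fun i _ => a1 i), Finset.sum_congr rfl (fun x _ => a2 x),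
        Finset.sum_comm]
    simp only [hcard, hr, Finset.sum_const, Finset.card_univ, Fintype.card_fin, smul_eq_mul] at e1
    exact (Nat.eq_of_mul_eq_mul_left (by omega) e1).symm
  have hNN : N * Nᵀ = ((k : ℤ) - l) • (1 : Matrix (Fin v) (Fin v) ℤ) +
      (l : ℤ) • Matrix.of (fun _ _ => 1) := by
    ext x y
    rw [Matrix.mul_apply]
    simp only [Matrix.transpose_apply, Matrix.add_apply, Matrix.smul_apply, Matrix.of_apply,
      smul_eq_mul, mul_one]
    by_cases hxy : x = y
    · subst hxy
      rw [Matrix.one_apply_eq]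
      have : ∀ i, N x i * N x i = if x ∈ Bl i then 1 else 0 := by
        intro i
        rw [hN']
        split_ifs <;> simp
      simp only [this, Finset.sum_boole, hr]
      rw [hrk]
      simp
    · rw [Matrix.one_apply_ne hxy]
      have : ∀ i, N x i * N y i = if x ∈ Bl i ∧ y ∈ Bl i then 1 else 0 := by
        intro i
        rw [hN', hN']
        split_ifs <;> simp_all
      simp only [this, Finset.sum_boole, hl x y hxy]
      simp
  have hdet : N.det ^ 2 = (((k : ℤ) - l) • (1 : Matrix (Fin v) (Fin v) ℤ) +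
      (l : ℤ) • Matrix.of (fun _ _ => 1)).det := by
    rw [← hNN, Matrix.det_mul, Matrix.det_transpose, sq]
  refine ⟨N.det, ?_⟩
  rw [hdet]
  have hq : (((k : ℤ) - l : ℤ) : ℚ) ≠ 0 := by
    have : (0 : ℤ) < (k : ℤ) - l := by omega
    exact_mod_cast this.ne'
  -- compute over the rationals
  have hmap : (((((k : ℤ) - l) • (1 : Matrix (Fin v) (Fin v) ℤ) +
      (l : ℤ) • Matrix.of (fun _ _ => 1)).det : ℤ) : ℚ) =
      ((((k : ℤ) - l) ^ (v - 1) * k ^ 2 : ℤ) : ℚ) := by
    have e1 : (((((k : ℤ) - l) • (1 : Matrix (Fin v) (Fin v) ℤ) +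
      (l : ℤ) • Matrix.of (fun _ _ => 1)).det : ℤ) : ℚ) =
      ((((k : ℚ) - l) • (1 : Matrix (Fin v) (Fin v) ℚ) +
      (l : ℚ) • Matrix.of (fun _ _ => 1))).det := by
      rw [Int.cast_det]
      congr 1
      ext x y
      simp only [Matrix.map_apply, Matrix.add_apply, Matrix.smul_apply, Matrix.of_apply,
        smul_eq_mul, mul_one, Matrix.one_apply]
      push_cast
      rfl
    rw [e1]
    set c : ℚ := (k : ℚ) - l with hc
    have hc0 : c ≠ 0 := by
      rw [hc]
      push_cast at hq
      exact hq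
    have e2 : (c • (1 : Matrix (Fin v) (Fin v) ℚ) + (l : ℚ) • Matrix.of (fun _ _ => 1)) =
        c • ((1 : Matrix (Fin v) (Fin v) ℚ) +
          (Matrix.replicateCol Unit (fun _ : Fin v => (l : ℚ) / c)) *
            (Matrix.replicateRow Unit (fun _ : Fin v => (1 : ℚ)))) := by
      ext x y
      simp only [Matrix.add_apply, Matrix.smul_apply, Matrix.of_apply, Matrix.mul_apply,
        smul_eq_mul, mul_one, Matrix.replicateCol_apply, Matrix.replicateRow_apply,
        Finset.univ_unique, Finset.sum_singleton]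
      field_simp
    rw [e2, Matrix.det_smul, Matrix.det_one_add_replicateCol_mul_replicateRow, Fintype.card_fin]
    simp only [dotProduct, one_mul, Finset.sum_const, Finset.card_univ, Fintype.card_fin,
      nsmul_eq_mul]
    have hv : v = (v - 1) + 1 := by omega
    have hpar' : (k : ℚ) * k = k + l * ((v : ℚ) - 1) := by
      have h1 : ((k * k : ℕ) : ℚ) = ((k + l * (v - 1) : ℕ) : ℚ) := by rw [hpar]
      rw [Nat.cast_add, Nat.cast_mul, Nat.cast_mul, Nat.cast_sub (by omega : 1 ≤ v)] at h1
      simpa using h1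
    have e3 : c ^ v = c ^ (v - 1) * c := by
      conv_lhs => rw [hv]
      rw [pow_succ]
    rw [e3]
    push_cast
    rw [← hc]
    have e4 : c * (1 + (v : ℚ) * ((l : ℚ) / c)) = k ^ 2 := by
      field_simp
      rw [hc]
      linarith
    rw [mul_assoc, e4]
  exact_mod_cast hmap

/-- no symmetric design with `v` even and `k - l = 5 (mod 8)`, `k` odd -/
lemma no_even {v k l : ℕ} (hd : IsSymmetricDesign v k l) (hk : 0 < k) (hlk : l < k)
    (hpar : k * k = k + l * (v - 1)) (hv : v % 2 = 0) (hk2 : k % 2 = 1) (h8 : (k - l) % 8 = 5) :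
    False := by
  obtain ⟨n, hn⟩ := symm_det hd hk hlk hpar
  have hv0 : 0 < v := by have := hd.1; omega
  have h1 : ((n ^ 2 : ℤ) : ZMod 8) = ((((k : ℤ) - l) ^ (v - 1) * k ^ 2 : ℤ) : ZMod 8) := by
    rw [hn]
  push_cast at h1
  have h2 : ((k : ZMod 8) - (l : ZMod 8)) = 5 := by
    rw [← Nat.cast_sub hlk.le]
    have h3 : ((k - l : ℕ) : ZMod 8) = ((5 : ℕ) : ZMod 8) := by
      rw [ZMod.natCast_eq_natCast_iff]
      exact h8
    rw [h3]; rfl
  have h3 : ((k : ZMod 8)) ^ 2 = 1 := by
    have h4 : ((k : ℕ) : ZMod 8) = ((k % 8 : ℕ) : ZMod 8) := by simp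
    rw [h4]
    have h5 : k % 8 = 1 ∨ k % 8 = 3 ∨ k % 8 = 5 ∨ k % 8 = 7 := by omega
    rcases h5 with h5 | h5 | h5 | h5 <;> rw [h5] <;> decide
  have h4 : (5 : ZMod 8) ^ (v - 1) = 5 := by
    obtain ⟨m, hm⟩ : ∃ m, v - 1 = 2 * m + 1 := ⟨(v - 2) / 2, by omega⟩
    rw [hm, pow_succ, pow_mul]
    have : (5 : ZMod 8) ^ 2 = 1 := by decide
    rw [this, one_pow, one_mul]
  rw [h2, h3, h4, mul_one] at h1
  have h5 : ∀ z : ZMod 8, z ^ 2 ≠ 5 := by decide
  exact h5 _ h1

end Pool.Agent.H444R3.GapDefs
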