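import Pool.Agent.H444R3.GapBrc

set_option autoImplicit false

/-!
Design graphs whose block size is a prime `d = 7 (mod 8)` with `(d - 1) / 2` prime.
-/

namespace Pool.Agent.H444R3.GapDefs

open Finset
open Pool.Agent.H177R2.SD

variable {V : Type} [Fintype V]

open Classical in
lemma design_symm (G : SimpleGraph V) {d : ℕ} {P : Finset V} {l : ℕ}
    (hbip : ∀ u v, G.Adj u v → (u ∈ P ↔ v ∉ P)) (hreg : ∀ v, (nbrs G v).card = d)
    (hcard : Pᶜ.card = P.card) (hd : d < P.card)
    (hl : ∀ x ∈ P, ∀ y ∈ P, x ≠ y → (common G x y).card = l) :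
    IsSymmetricDesign P.card d l := by
  apply symm_of_rel (α := {x // x ∈ P}) (β := {x // x ∈ Pᶜ}) (fun a b => G.Adj a.1 b.1)
  · rw [Fintype.card_coe]
  · rw [Fintype.card_coe, hcard]
  · exact hd
  · rintro ⟨b, hb⟩
    rw [← hreg b]
    refine Finset.card_bij (fun a _ => a.1) ?_ ?_ ?_
    · intro a ha
      rw [mem_nbrs]
      exact ((Finset.mem_filter.1 ha).2).symm
    · intro a _ a' _ h
      exact Subtype.ext h
    · intro p hp
      rw [mem_nbrs] at hp
      have : p ∈ P := by
        by_contra hp'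
        exact (Finset.mem_compl.1 hb) ((hbip b p hp).2 hp')
      exact ⟨⟨p, this⟩, by simpa using hp.symm, rfl⟩
  · rintro ⟨a, ha⟩
    rw [← hreg a]
    refine Finset.card_bij (fun b _ => b.1) ?_ ?_ ?_
    · intro b hb
      rw [mem_nbrs]
      exact (Finset.mem_filter.1 hb).2
    · intro b _ b' _ h
      exact Subtype.ext h
    · intro b hb
      rw [mem_nbrs] at hb
      exact ⟨⟨b, Finset.mem_compl.2 ((hbip a b hb).1 ha)⟩, by simpa using hb, rfl⟩
  · rintro ⟨a, ha⟩ ⟨a', ha'⟩ hne
    rw [← hl a ha a' ha' (fun h => hne (Subtype.ext h))]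
    refine Finset.card_bij (fun b _ => b.1) ?_ ?_ ?_
    · intro b hb
      rw [mem_common]
      exact (Finset.mem_filter.1 hb).2
    · intro b _ b' _ h
      exact Subtype.ext h
    · intro b hb
      rw [mem_common] at hb
      exact ⟨⟨b, Finset.mem_compl.2 ((hbip a b hb.1).1 ha)⟩, by simpa using hb, rfl⟩

open Classical in
/-- **design graphs** for safe primes `d = 7 (mod 8)` -/
theorem design_safe (G : SimpleGraph V) {d : ℕ} (hp : d.Prime) (h8 : d % 8 = 7)
    (hs : ((d - 1) / 2).Prime) (hG : IsMinDeg d G) (hD : IsDesignGraph G d) :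
    gap G ≤ Real.sqrt (((d : ℝ) + 1) / 2) / d := by
  obtain ⟨hc, h3, hmin⟩ := hG
  obtain ⟨P, l, hbip, hk, hl⟩ := hD
  have : Nonempty V := Fintype.card_pos_iff.1 (by omega)
  have hd7 : 7 ≤ d := by omega
  have hdpos : (0 : ℝ) < d := by exact_mod_cast (by omega : 0 < d)
  rcases design_reg G (by omega) hmin hbip hk hl with h0 | ⟨hreg, hcard, hdP, hpar, hld, hgap⟩
  · exact h0.trans (by positivity)
  obtain ⟨q, hq⟩ : ∃ q, q = (d - 1) / 2 := ⟨_, rfl⟩
  rw [← hq] at hs
  have hdq : d = 2 * q + 1 := by omega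
  have hq4 : q % 4 = 3 := by omega
  -- large `l`
  have hbig : q ≤ l → gap G ≤ Real.sqrt (((d : ℝ) + 1) / 2) / d := by
    intro hql
    refine hgap.trans ?_
    gcongr
    have h1 : (q : ℝ) ≤ l := by exact_mod_cast hql
    have h2 : (d : ℝ) = 2 * q + 1 := by rw [hdq]; push_cast; ring
    linarith
  rcases Nat.lt_or_ge l q with hlq | hql
  swap
  · exact hbig hql
  exfalso
  have hl0 : 0 < l := by
    rcases Nat.eq_zero_or_pos l with h | h
    · rw [h] at hpar
      have : d * d ≥ 7 * d := Nat.mul_le_mul_right d hd7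
      omega
    · exact h
  have hpar2 : l * (P.card - 1) = d * (2 * q) := by
    have h1 : d * d = d + d * (2 * q) := by
      conv_lhs => rw [hdq]
      rw [hdq]; ring
    omega
  have hcop : Nat.Coprime l d := by
    rw [Nat.coprime_comm, hp.coprime_iff_not_dvd]
    intro hdvd
    have := Nat.le_of_dvd hl0 hdvd
    omega
  have hdvd : l ∣ 2 * q := by
    have h1 : l ∣ d * (2 * q) := ⟨_, hpar2.symm⟩
    exact hcop.dvd_of_dvd_mul_left h1
  have hcopq : Nat.Coprime l q := by
    rw [Nat.coprime_comm, hs.coprime_iff_not_dvd]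
    intro hdvd
    have := Nat.le_of_dvd hl0 hdvd
    omega
  have hdvd2 : l ∣ 2 := hcopq.dvd_of_dvd_mul_right hdvd
  have hl12 : l = 1 ∨ l = 2 := (Nat.dvd_prime Nat.prime_two).1 hdvd2
  have hPd : d < P.card := by
    by_contra hcon
    push Not at hcon
    have h1 : l * (P.card - 1) ≤ 2 * (d - 1) := by
      apply Nat.mul_le_mul
      · omega
      · omega
    rw [hpar2] at h1
    have h2 : d * (2 * q) ≥ 7 * (2 * q) := Nat.mul_le_mul_right _ hd7
    omega
  have hsym := design_symm G hbip hreg hcard hPd hl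
  rcases hl12 with h1 | h2
  · subst h1
    have hv : P.card - 1 = 2 * (d * q) := by
      rw [one_mul] at hpar2
      rw [hpar2]; ring
    have hdq7 : d * q ≥ 7 * q := Nat.mul_le_mul_right _ hd7
    have := brc_local hsym (by omega) (by omega) hs (by omega) ⟨2, by omega⟩ (by
      intro h
      have h4 : d - 1 = 2 * q := by omega
      rw [h4, sq] at h
      have h5 : q ∣ 2 := Nat.dvd_of_mul_dvd_mul_right hs.pos h
      have := Nat.le_of_dvd (by norm_num) h5
      omega) (by
      intro h
      have := Nat.le_of_dvd (by norm_num) h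
      omega)
    obtain ⟨-, hsq⟩ := this
    have h6 : (P.card - 1) / 2 = d * q := by omega
    rw [h6] at hsq
    have hodd : Odd (d * q) := by
      rw [Nat.odd_mul]
      exact ⟨Nat.odd_iff.2 (by omega), Nat.odd_iff.2 (by omega)⟩
    rw [hodd.neg_one_pow] at hsq
    haveI : Fact q.Prime := ⟨hs⟩
    have h7 : IsSquare (-1 : ZMod q) := by
      simpa using hsq
    rw [ZMod.exists_sq_eq_neg_one_iff] at h7
    exact h7 hq4
  · subst h2
    have hv : P.card - 1 = d * q := by
      have : 2 * (P.card - 1) = 2 * (d * q) := by rw [hpar2]; ring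
      omega
    have hodd : Odd (d * q) := by
      rw [Nat.odd_mul]
      exact ⟨Nat.odd_iff.2 (by omega), Nat.odd_iff.2 (by omega)⟩
    rw [← hv] at hodd
    rw [Nat.odd_iff] at hodd
    exact no_even hsym (by omega) (by omega) hpar (by omega) (by omega) (by omega)

end Pool.Agent.H444R3.GapDefs
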