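import Pool.Agent.H444R3.GapPlane
import Pool.Agent.H444R3.GapSafe

set_option autoImplicit false

/-!
Projective planes as configurations.
-/

namespace Pool.Agent.H444R3.GapDefs

open Finset Configuration

/-- there is no finite projective plane of order `n` -/
def NoPlane (n : ℕ) : Prop :=
  ¬ ∃ (P L : Type) (_ : Membership P L) (_ : Fintype P) (_ : Fintype L)
    (_ : ProjectivePlane P L), ProjectivePlane.order P L = n

/-- the counts in a projective plane -/
lemma planeRel_of_plane (P L : Type) [Membership P L] [Fintype P] [Fintype L]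
    [ProjectivePlane P L] : IsPlaneRel (fun (p : P) (l : L) => p ∈ l) (ProjectivePlane.order P L) := by
  classical
  refine ⟨?_, ?_, ?_, ?_⟩
  · intro p
    rw [← ProjectivePlane.lineCount_eq (P := P) (L := L) p, lineCount, Nat.card_eq_fintype_card,
      Fintype.card_subtype]
  · intro l
    rw [← ProjectivePlane.pointCount_eq P l, pointCount, Nat.card_eq_fintype_card,
      Fintype.card_subtype]
  · intro p p' hp
    obtain ⟨l, hl, hu⟩ := HasLines.existsUnique_line P L p p' hp
    rw [Finset.card_eq_one]
    refine ⟨l, ?_⟩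
    ext l'
    rw [Finset.mem_filter, Finset.mem_singleton]
    constructor
    · rintro ⟨-, h⟩
      exact hu l' h
    · rintro rfl
      exact ⟨Finset.mem_univ _, hl⟩
  · intro l l' hl
    obtain ⟨p, hp, hu⟩ := HasPoints.existsUnique_point P L l l' hl
    rw [Finset.card_eq_one]
    refine ⟨p, ?_⟩
    ext p'
    rw [Finset.mem_filter, Finset.mem_singleton]
    constructor
    · rintro ⟨-, h⟩
      exact hu p' h
    · rintro rfl
      exact ⟨Finset.mem_univ _, hp⟩

open scoped LinearAlgebra.Projectivization in
/-- the plane over a finite field -/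
lemma exists_planeRel (q : ℕ) (hq : IsPrimePow q) :
    ∃ (α : Type) (_ : Fintype α) (_ : Nonempty α) (R : α → α → Prop), IsPlaneRel R q := by
  classical
  obtain ⟨p, n, hp, hn, rfl⟩ := hq
  have hp' : p.Prime := hp.nat_prime
  haveI : Fact p.Prime := ⟨hp'⟩
  let K := GaloisField p n
  have hcard : Nat.card K = p ^ n := GaloisField.card p n hn.ne'
  haveI : Finite K := Nat.finite_of_card_ne_zero (by rw [hcard]; exact pow_ne_zero _ hp'.ne_zero)
  haveI : Fintype (ℙ K (Fin 3 → K)) := Fintype.ofFinite _
  have hcP : Nat.card (ℙ K (Fin 3 → K)) = ∑ i ∈ Finset.range 3, Nat.card K ^ i := by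
    apply Projectivization.card_of_finrank
    simp
  have hord : ProjectivePlane.order (ℙ K (Fin 3 → K)) (ℙ K (Fin 3 → K)) = p ^ n := by
    have h1 := ProjectivePlane.card_points (ℙ K (Fin 3 → K)) (ℙ K (Fin 3 → K))
    rw [Nat.card_eq_fintype_card, h1, hcard] at hcP
    simp only [Finset.sum_range_succ, Finset.sum_range_zero, pow_zero, pow_one, zero_add] at hcP
    set m := ProjectivePlane.order (ℙ K (Fin 3 → K)) (ℙ K (Fin 3 → K)) with hm
    set r := p ^ n with hr
    rcases lt_trichotomy m r with h | h | h
    · nlinarith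
    · exact h
    · nlinarith
  refine ⟨ℙ K (Fin 3 → K), inferInstance, ?_, fun a b => a ∈ b, ?_⟩
  · obtain ⟨p₁, -⟩ := @ProjectivePlane.exists_config (ℙ K (Fin 3 → K)) (ℙ K (Fin 3 → K)) _ _
    exact ⟨p₁⟩
  · have := planeRel_of_plane (ℙ K (Fin 3 → K)) (ℙ K (Fin 3 → K))
    rw [hord] at this
    exact this

open Classical in
/-- a plane has a perfect matching -/
lemma exists_matching {α : Type} [Fintype α] {R : α → α → Prop} {n : ℕ} (h : IsPlaneRel R n) :
    ∃ M : α ≃ α, ∀ a, R a (M a) := by
  have hall := (Finset.all_card_le_biUnion_card_iff_exists_injective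
    (fun a : α => univ.filter (fun b => R a b))).1 (by
      intro s
      have := Finset.card_mul_le_card_mul (s := s)
        (t := s.biUnion (fun a : α => univ.filter (fun b => R a b))) R (m := n + 1) (n := n + 1)
        (by
          intro a ha
          rw [← h.left a]
          apply Finset.card_le_card
          intro b hb
          rw [Finset.mem_bipartiteAbove]
          refine ⟨?_, (Finset.mem_filter.1 hb).2⟩
          rw [Finset.mem_biUnion]
          exact ⟨a, ha, hb⟩)
        (by
          intro b hb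
          rw [← h.right b]
          apply Finset.card_le_card
          intro a ha
          rw [Finset.mem_bipartiteBelow] at ha
          simpa using ha.2)
      exact Nat.le_of_mul_le_mul_right this (by omega))
  obtain ⟨f, hf, hfR⟩ := hall
  refine ⟨Equiv.ofBijective f (Finite.injective_iff_bijective.1 hf), ?_⟩
  intro a
  have := hfR a
  simpa using this

/-- gaps of planes over finite fields -/
theorem gap_prime_pow (q : ℕ) (hq : IsPrimePow q) (d : ℕ) (hd : d ≤ q + 1) :
    Real.sqrt q / ((q : ℝ) + 1) ∈ gapsMin d := by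
  obtain ⟨α, _, _, R, hR⟩ := exists_planeRel q hq
  obtain ⟨⟨h1, h2, h3⟩, h4⟩ := gap_plane hR hq.pos
  exact ⟨α ⊕ α, inferInstance, bip R, ⟨h1, h2, fun v => by rw [h3 v]; exact hd⟩, h4.symm⟩

/-- planes over finite fields minus a perfect matching -/
theorem gap_minus_pow (q : ℕ) (hq : IsPrimePow q) (h3 : 3 ≤ q) :
    ∃ r ∈ gapsReg q, (Real.sqrt q - 1) / q ≤ r := by
  obtain ⟨α, _, _, R, hR⟩ := exists_planeRel q hq
  obtain ⟨M, hM⟩ := exists_matching hR
  obtain ⟨h1, h2⟩ := gap_minus hR h3 hM
  exact ⟨_, ⟨α ⊕ α, inferInstance, bip (minus R M), h1, rfl⟩, h2⟩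

end Pool.Agent.H444R3.GapDefs
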