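import Mathlib

set_option autoImplicit false

/-!
The spectral gap from 1 of the normalized Laplacian: definitions.
-/

namespace Pool.Agent.H444R3.GapDefs

open Finset

open Classical in
/-- the set of neighbours of `v` in `G` -/
noncomputable def nbrs {V : Type} [Fintype V] (G : SimpleGraph V) (v : V) : Finset V :=
  Finset.univ.filter (fun w => G.Adj v w)

open Classical in
/-- the set of common neighbours of `u` and `v` in `G` -/
noncomputable def common {V : Type} [Fintype V] (G : SimpleGraph V) (u v : V) : Finset V :=
  Finset.univ.filter (fun w => G.Adj u w ∧ G.Adj v w)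

/-- the normalized Laplacian `(L f)(v) = f(v) - (1 / deg v) * ∑_{w ~ v} f(w)` -/
noncomputable def lap {V : Type} [Fintype V] (G : SimpleGraph V) (f : V → ℝ) (v : V) : ℝ :=
  f v - (∑ w ∈ nbrs G v, f w) / ((nbrs G v).card : ℝ)

/-- the gap of `G`: the least distance from `1` of an eigenvalue of the normalized Laplacian -/
noncomputable def gap {V : Type} [Fintype V] (G : SimpleGraph V) : ℝ :=
  sInf {r : ℝ | ∃ (μ : ℝ) (f : V → ℝ), f ≠ 0 ∧ (∀ v, lap G f v = μ * f v) ∧ r = |μ - 1|}

/-- `G` is connected with at least 3 vertices and every vertex has degree `d` -/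
def IsReg {V : Type} [Fintype V] (d : ℕ) (G : SimpleGraph V) : Prop :=
  G.Connected ∧ 3 ≤ Fintype.card V ∧ ∀ v, (nbrs G v).card = d

/-- `G` is connected with at least 3 vertices and every vertex has degree at least `d` -/
def IsMinDeg {V : Type} [Fintype V] (d : ℕ) (G : SimpleGraph V) : Prop :=
  G.Connected ∧ 3 ≤ Fintype.card V ∧ ∀ v, d ≤ (nbrs G v).card

/-- the gaps of the finite connected `d`-regular graphs with at least 3 vertices -/
def gapsReg (d : ℕ) : Set ℝ :=
  {r | ∃ (V : Type) (_ : Fintype V) (G : SimpleGraph V), IsReg d G ∧ r = gap G}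

/-- the gaps of the finite connected graphs with minimum degree at least `d` and at least 3 vertices -/
def gapsMin (d : ℕ) : Set ℝ :=
  {r | ∃ (V : Type) (_ : Fintype V) (G : SimpleGraph V), IsMinDeg d G ∧ r = gap G}

/-- `G` is the incidence graph of a `(v, k, l)` design for some `v, l`: the vertices are divided in
points (the set `P`) and blocks (the others), edges join a point and a block, every block is joined
to exactly `k` points, and any two distinct points have exactly `l` common blocks -/
def IsDesignGraph {V : Type} [Fintype V] (G : SimpleGraph V) (k : ℕ) : Prop :=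
  ∃ (P : Finset V) (l : ℕ), (∀ u v, G.Adj u v → (u ∈ P ↔ v ∉ P)) ∧
    (∀ b, b ∉ P → (nbrs G b).card = k) ∧
    (∀ x ∈ P, ∀ y ∈ P, x ≠ y → (common G x y).card = l)

end Pool.Agent.H444R3.GapDefs
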