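import Pool.Agent.H444R3.GapSpec

set_option autoImplicit false

/-!
Design graphs with minimum degree at least the block size.
-/

namespace Pool.Agent.H444R3.GapDefs

open Finset

variable {V : Type} [Fintype V]

lemma card_common_self (G : SimpleGraph V) (x : V) : (common G x x).card = (nbrs G x).card := by
  congr 1
  ext w
  rw [mem_common, mem_nbrs]
  simp

open Classical in
lemma sum_deg (G : SimpleGraph V) (x : V) :
    ∑ b ∈ nbrs G x, (nbrs G b).card = ∑ q, (common G x q).card := by
  have h1 : ∀ b, (nbrs G b).card = ∑ q, if G.Adj b q then 1 else 0 := by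
    intro b
    unfold nbrs
    rw [Finset.card_filter]
  have h2 : ∀ q, (common G x q).card = ∑ b, if G.Adj x b ∧ G.Adj q b then 1 else 0 := by
    intro q
    unfold common
    rw [Finset.card_filter]
  simp only [h2]
  rw [Finset.sum_comm]
  unfold nbrs
  rw [Finset.sum_filter]
  apply Finset.sum_congr rfl
  intro b _
  by_cases hb : G.Adj x b
  · rw [if_pos hb, Finset.card_filter]
    apply Finset.sum_congr rfl
    intro q _
    simp [hb, G.adj_comm b q]
  · rw [if_neg hb]
    simp [hb]

open Classical in
/-- more blocks than points: the gap vanishes -/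
lemma gap_zero_of_lt (G : SimpleGraph V) (P : Finset V)
    (hbip : ∀ u v, G.Adj u v → (u ∈ P ↔ v ∉ P)) (hlt : P.card < Pᶜ.card) : gap G ≤ 0 := by
  -- the linear map
  let φ : ({x // x ∈ Pᶜ} → ℝ) →ₗ[ℝ] ({x // x ∈ P} → ℝ) :=
    { toFun := fun f p => ∑ b : {x // x ∈ Pᶜ}, if G.Adj p.1 b.1 then f b else 0
      map_add' := by
        intro f g
        funext p
        simp only [Pi.add_apply]
        rw [← Finset.sum_add_distrib]
        apply Finset.sum_congr rfl
        intro b _
        split_ifs <;> simp
      map_smul' := by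
        intro c f
        funext p
        simp only [Pi.smul_apply, smul_eq_mul, RingHom.id_apply]
        rw [Finset.mul_sum]
        apply Finset.sum_congr rfl
        intro b _
        split_ifs <;> simp }
  have hker : LinearMap.ker φ ≠ ⊥ := by
    apply LinearMap.ker_ne_bot_of_finrank_lt
    rw [Module.finrank_pi, Module.finrank_pi, Fintype.card_coe, Fintype.card_coe]
    exact hlt
  obtain ⟨f, hf, hf0⟩ := (Submodule.ne_bot_iff _).1 hker
  rw [LinearMap.mem_ker] at hf
  set g : V → ℝ := fun x => if h : x ∈ Pᶜ then f ⟨x, h⟩ else 0 with hg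
  have hg0 : g ≠ 0 := by
    intro h0
    apply hf0
    funext b
    have := congrFun h0 b.1
    simp only [hg, b.2, dif_pos, Pi.zero_apply] at this
    exact this
  have hgP : ∀ x ∈ P, g x = 0 := by
    intro x hx
    simp only [hg]
    rw [dif_neg]
    simpa using hx
  have hsum : ∀ v, ∑ w ∈ nbrs G v, g w = 0 := by
    intro v
    by_cases hv : v ∈ P
    · have h1 := congrFun hf ⟨v, hv⟩
      simp only [φ, LinearMap.coe_mk, AddHom.coe_mk, Pi.zero_apply] at h1
      rw [← h1]
      unfold nbrs
      rw [Finset.sum_filter]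
      rw [← Finset.sum_subset (Finset.subset_univ Pᶜ)]
      · rw [← Finset.sum_coe_sort Pᶜ]
        apply Finset.sum_congr rfl
        intro b _
        simp only [hg, b.2, dif_pos]
      · intro x _ hx
        have : x ∈ P := by simpa using hx
        rw [hgP x this]
        simp
    · apply Finset.sum_eq_zero
      intro w hw
      apply hgP
      have := hbip v w ((mem_nbrs G v w).1 hw)
      by_contra hw'
      exact hv (this.2 hw')
  have h := gap_le_of_eig G (μ := 1) hg0 (by
    intro v
    unfold lap
    rw [hsum v]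
    simp)
  simpa using h

open Classical in
/-- structure of design graphs with minimum degree at least the block size -/
theorem design_reg (G : SimpleGraph V) {d : ℕ} (hd : 3 ≤ d) (hmin : ∀ v, d ≤ (nbrs G v).card)
    [Nonempty V] {P : Finset V} {l : ℕ}
    (hbip : ∀ u v, G.Adj u v → (u ∈ P ↔ v ∉ P)) (hk : ∀ b, b ∉ P → (nbrs G b).card = d)
    (hl : ∀ x ∈ P, ∀ y ∈ P, x ≠ y → (common G x y).card = l) :
    gap G ≤ 0 ∨ ((∀ v, (nbrs G v).card = d) ∧ Pᶜ.card = P.card ∧ d ≤ P.card ∧
      d * d = d + l * (P.card - 1) ∧ l ≤ d ∧ gap G ≤ Real.sqrt ((d : ℝ) - l) / d) := by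
  by_cases hlt : P.card < Pᶜ.card
  · exact Or.inl (gap_zero_of_lt G P hbip hlt)
  right
  push Not at hlt
  -- double counting of edges
  have hcount : ∑ p ∈ P, (nbrs G p).card = ∑ b ∈ Pᶜ, (nbrs G b).card := by
    have h1 : ∀ p ∈ P, (nbrs G p).card = ∑ b ∈ Pᶜ, if G.Adj p b then 1 else 0 := by
      intro p hp
      rw [← Finset.card_filter]
      congr 1
      ext b
      rw [mem_nbrs, Finset.mem_filter, Finset.mem_compl]
      exact ⟨fun h => ⟨(hbip p b h).1 hp, h⟩, fun h => h.2⟩
    have h2 : ∀ b ∈ Pᶜ, (nbrs G b).card = ∑ p ∈ P, if G.Adj p b then 1 else 0 := by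
      intro b hb
      rw [← Finset.card_filter]
      congr 1
      ext p
      rw [mem_nbrs, Finset.mem_filter]
      rw [Finset.mem_compl] at hb
      refine ⟨fun h => ⟨?_, h.symm⟩, fun h => h.2.symm⟩
      by_contra hp
      exact hb ((hbip b p h).2 hp)
    rw [Finset.sum_congr rfl h1, Finset.sum_congr rfl h2, Finset.sum_comm]
  have hB : ∑ b ∈ Pᶜ, (nbrs G b).card = Pᶜ.card * d := by
    rw [Finset.sum_congr rfl (fun b hb => hk b (Finset.mem_compl.1 hb)), Finset.sum_const,
      smul_eq_mul]
  have hPge : P.card * d ≤ ∑ p ∈ P, (nbrs G p).card := by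
    rw [← smul_eq_mul, ← Finset.sum_const]
    exact Finset.sum_le_sum (fun p _ => hmin p)
  have hle : Pᶜ.card * d ≤ P.card * d := Nat.mul_le_mul_right d hlt
  have heq : ∑ p ∈ P, (nbrs G p).card = P.card * d := by
    apply le_antisymm _ hPge
    rw [hcount, hB]; exact hle
  have hcard : Pᶜ.card = P.card := by
    have : Pᶜ.card * d = P.card * d := by rw [← hB, ← hcount, heq]
    exact Nat.eq_of_mul_eq_mul_right (by omega) this
  have hPreg : ∀ p ∈ P, (nbrs G p).card = d := by
    have h1 : ∑ p ∈ P, d = ∑ p ∈ P, (nbrs G p).card := by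
      rw [heq, Finset.sum_const, smul_eq_mul]
    have h2 := (Finset.sum_eq_sum_iff_of_le (fun p _ => hmin p)).1 h1
    intro p hp
    exact (h2 p hp).symm
  have hreg : ∀ v, (nbrs G v).card = d := by
    intro v
    by_cases hv : v ∈ P
    · exact hPreg v hv
    · exact hk v hv
  -- there is a block
  have hexb : ∃ b, b ∉ P := by
    obtain ⟨v⟩ := ‹Nonempty V›
    by_cases hv : v ∈ P
    · have : 0 < (nbrs G v).card := by rw [hreg v]; omega
      obtain ⟨w, hw⟩ := Finset.card_pos.1 this
      exact ⟨w, (hbip v w ((mem_nbrs G v w).1 hw)).1 hv⟩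
    · exact ⟨v, hv⟩
  obtain ⟨b₀, hb₀⟩ := hexb
  have hsub : nbrs G b₀ ⊆ P := by
    intro p hp
    by_contra hp'
    exact hb₀ ((hbip b₀ p ((mem_nbrs G b₀ p).1 hp)).2 hp')
  have hdP : d ≤ P.card := by
    rw [← hreg b₀]
    exact Finset.card_le_card hsub
  obtain ⟨x, hx, y, hy, hxy⟩ := Finset.one_lt_card.1 (show 1 < P.card by omega)
  have hld : l ≤ d := by
    rw [← hl x hx y hy hxy, ← hreg x]
    apply Finset.card_le_card
    intro w hw
    rw [mem_common] at hw
    rw [mem_nbrs]
    exact hw.1
  refine ⟨hreg, hcard, hdP, ?_, hld, ?_⟩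
  · have h1 := sum_deg G x
    rw [Finset.sum_congr rfl (fun b _ => hreg b), Finset.sum_const, hreg x, smul_eq_mul] at h1
    rw [h1]
    have h2 : ∑ q, (common G x q).card = ∑ q ∈ P, (common G x q).card := by
      symm
      apply Finset.sum_subset (Finset.subset_univ P)
      intro q _ hq
      rw [Finset.card_eq_zero, Finset.eq_empty_iff_forall_notMem]
      intro w hw
      rw [mem_common] at hw
      have h3 := (hbip x w hw.1).1 hx
      have h4 : w ∈ P := by
        by_contra h5
        exact hq ((hbip q w hw.2).2 h5)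
      exact h3 h4
    rw [h2, ← Finset.add_sum_erase P _ hx, card_common_self, hreg x]
    congr 1
    rw [Finset.sum_congr rfl (fun q hq => hl x hx q (Finset.mem_of_mem_erase hq)
      (Finset.ne_of_mem_erase hq).symm), Finset.sum_const, Finset.card_erase_of_mem hx,
      smul_eq_mul, mul_comm]
  · have hld' : (0 : ℝ) ≤ (d : ℝ) - l := by
      have : (l : ℝ) ≤ d := by exact_mod_cast hld
      linarith
    set f : V → ℝ := fun v => (if v = x then 1 else 0) - (if v = y then 1 else 0) with hf
    have hf0 : f ≠ 0 := by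
      intro h0
      have := congrFun h0 x
      simp [hf, hxy] at this
    apply gap_le_of_test G (by omega) hreg (Real.sqrt_nonneg _) hf0
    rw [Real.sq_sqrt hld']
    have e1 : ∑ v, f v ^ 2 = 2 := by
      have : ∀ v, f v ^ 2 = (if v = x then 1 else 0) + (if v = y then 1 else 0) := by
        intro v
        simp only [hf]
        by_cases h1 : v = x
        · subst h1
          simp [hxy]
        · by_cases h2 : v = y
          · simp [h2, hxy.symm]
          · simp [h1, h2]
      simp only [this]
      rw [Finset.sum_add_distrib]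
      simp
      norm_num
    have e2 : ∀ v, ∑ w ∈ nbrs G v, f w = (if G.Adj x v then 1 else 0) - (if G.Adj y v then 1 else 0) := by
      intro v
      simp only [hf]
      rw [Finset.sum_sub_distrib, Finset.sum_ite_eq', Finset.sum_ite_eq']
      simp only [mem_nbrs, G.adj_comm v]
    have e3 : ∀ v, (∑ w ∈ nbrs G v, f w) ^ 2 = (if G.Adj x v then 1 else 0) +
        (if G.Adj y v then 1 else 0) - 2 * (if G.Adj x v ∧ G.Adj y v then 1 else 0) := by
      intro v
      rw [e2]
      by_cases h1 : G.Adj x v <;> by_cases h2 : G.Adj y v <;> simp [h1, h2] <;> norm_num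
    rw [Finset.sum_congr rfl (fun v _ => e3 v), Finset.sum_sub_distrib, Finset.sum_add_distrib,
      ← Finset.mul_sum, Finset.sum_boole, Finset.sum_boole, Finset.sum_boole, e1]
    have e4 : (univ.filter (fun v => G.Adj x v)).card = d := hreg x
    have e5 : (univ.filter (fun v => G.Adj y v)).card = d := hreg y
    have e6 : (univ.filter (fun v => G.Adj x v ∧ G.Adj y v)).card = l := hl x hx y hy hxy
    rw [e4, e5, e6]
    linarith

end Pool.Agent.H444R3.GapDefs
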