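import Pool.Agent.H444R3.GapBip

set_option autoImplicit false

/-!
The divisible difference set `{0,1,3,9,18,23,30}` modulo `33` and a 7-regular graph on 66 vertices
with gap `√5 / 7`.
-/

namespace Pool.Agent.H444R3.GapDefs

open Finset

/-- the difference set -/
def D33 : Finset (ZMod 33) := {0, 1, 3, 9, 18, 23, 30}

/-- the multiples of `3` -/
def H33 : Finset (ZMod 33) := {0, 3, 6, 9, 12, 15, 18, 21, 24, 27, 30}

/-- the incidence relation -/
def R33 (x y : ZMod 33) : Prop := y - x ∈ D33

lemma c33 : ∀ u : ZMod 33, ((D33 ×ˢ D33).filter (fun p => p.1 - p.2 = u)).card =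
    (if u = 0 then 5 else 0) + (if u ∈ H33 then 1 else 0) + 1 := by decide

lemma H33_add : ∀ u ∈ H33, ∀ v ∈ H33, u + v ∈ H33 := by decide

lemma H33_sub : ∀ u ∈ H33, ∀ v ∈ H33, v - u ∈ H33 := by decide

/-- the sum over the cosets of `H33` -/
noncomputable def T33 (g : ZMod 33 → ℝ) (x : ZMod 33) : ℝ := ∑ u ∈ H33, g (x + u)

lemma T33_T33 (g : ZMod 33 → ℝ) (x : ZMod 33) : ∑ u ∈ H33, T33 g (x + u) = 11 * T33 g x := by
  have h : ∀ u ∈ H33, T33 g (x + u) = T33 g x := by
    intro u hu
    unfold T33
    refine Finset.sum_nbij' (fun v => u + v) (fun w => w - u) ?_ ?_ ?_ ?_ ?_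
    · intro v hv; exact H33_add u hu v hv
    · intro w hw; exact H33_sub u hu w hw
    · intro v _; simp
    · intro w _; simp
    · intro v _; rw [add_assoc]
  rw [Finset.sum_congr rfl h, Finset.sum_const, show H33.card = 11 from by decide]
  simp

lemma sum_shift (g : ZMod 33 → ℝ) (u : ZMod 33) : ∑ x, g (x + u) = ∑ x, g x :=
  Fintype.sum_equiv (Equiv.addRight u) _ _ (fun _ => rfl)

lemma sum_T33 (g : ZMod 33 → ℝ) : ∑ x, T33 g x = 11 * ∑ x, g x := by
  unfold T33
  rw [Finset.sum_comm]
  simp only [sum_shift]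
  rw [Finset.sum_const, show H33.card = 11 from by decide]
  simp

lemma conv33 (g : ZMod 33 → ℝ) (x : ZMod 33) :
    ∑ p ∈ D33 ×ˢ D33, g (x + (p.1 - p.2)) = 5 * g x + T33 g x + ∑ y, g y := by
  rw [← Finset.sum_fiberwise (D33 ×ˢ D33) (fun p => p.1 - p.2)]
  have h : ∀ u : ZMod 33, ∑ p ∈ (D33 ×ˢ D33).filter (fun p => p.1 - p.2 = u),
      g (x + (p.1 - p.2)) = (((if u = 0 then 5 else 0) + (if u ∈ H33 then 1 else 0) + 1 : ℕ) : ℝ) *
        g (x + u) := by
    intro u
    rw [← c33 u, Finset.sum_congr rfl (g := fun _ => g (x + u))]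
    · rw [Finset.sum_const, nsmul_eq_mul]
    · intro p hp
      rw [(Finset.mem_filter.1 hp).2]
  rw [Finset.sum_congr rfl (fun u _ => h u)]
  have h2 : ∀ u : ZMod 33, (((if u = 0 then 5 else 0) + (if u ∈ H33 then 1 else 0) + 1 : ℕ) : ℝ) *
        g (x + u) = (if u = 0 then 5 * g (x + u) else 0) + (if u ∈ H33 then g (x + u) else 0) +
        g (u + x) := by
    intro u
    rw [add_comm u x]
    push_cast
    split_ifs <;> ring
  rw [Finset.sum_congr rfl (fun u _ => h2 u), Finset.sum_add_distrib, Finset.sum_add_distrib,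
    sum_shift, Finset.sum_ite_eq' Finset.univ (0 : ZMod 33) (fun u => 5 * g (x + u))]
  simp only [Finset.mem_univ, if_true, add_zero]
  congr 2
  unfold T33
  rw [Finset.sum_ite_mem, Finset.univ_inter]

open Classical in
lemma sum_right33 (F : ZMod 33 → ℝ) (a : ZMod 33) :
    ∑ b, (if R33 a b then F b else 0) = ∑ s ∈ D33, F (a + s) := by
  rw [← Finset.univ_inter D33, ← Finset.sum_ite_mem]
  refine Fintype.sum_equiv (Equiv.subRight a) _ _ ?_
  intro b
  unfold R33
  rw [Equiv.subRight_apply, add_sub_cancel]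
  congr

open Classical in
lemma sum_left33 (F : ZMod 33 → ℝ) (b : ZMod 33) :
    ∑ a, (if R33 a b then F a else 0) = ∑ s ∈ D33, F (b - s) := by
  rw [← Finset.univ_inter D33, ← Finset.sum_ite_mem]
  refine Fintype.sum_equiv (Equiv.subLeft b) _ _ ?_
  intro a
  unfold R33
  rw [Equiv.subLeft_apply, sub_sub_cancel]
  congr

lemma opL33 (g : ZMod 33 → ℝ) (a : ZMod 33) :
    opL R33 g a = 5 * g a + T33 g a + ∑ y, g y := by
  rw [← conv33]
  unfold opL
  rw [sum_right33, Finset.sum_product]
  apply Finset.sum_congr rfl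
  intro s _
  rw [sum_left33]
  apply Finset.sum_congr rfl
  intro t _
  congr 1
  ring

lemma opR33 (g : ZMod 33 → ℝ) (b : ZMod 33) :
    opR R33 g b = 5 * g b + T33 g b + ∑ y, g y := by
  rw [← conv33]
  unfold opR
  rw [sum_left33, Finset.sum_product_right]
  apply Finset.sum_congr rfl
  intro s _
  rw [sum_right33]
  apply Finset.sum_congr rfl
  intro t _
  congr 1
  ring

lemma eig33 (g : ZMod 33 → ℝ) (t : ℝ) (hg : g ≠ 0)
    (h : ∀ x, 5 * g x + T33 g x + ∑ y, g y = t * g x) : 5 ≤ t := by
  set S := ∑ y, g y with hS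
  have h1 : 49 * S = t * S := by
    have e1 : ∑ x, (5 * g x + T33 g x + S) = t * S := by
      rw [Finset.sum_congr rfl (fun x _ => h x), ← Finset.mul_sum]
    rw [Finset.sum_add_distrib, Finset.sum_add_distrib, ← Finset.mul_sum, sum_T33,
      Finset.sum_const, Finset.card_univ, ZMod.card, ← hS] at e1
    rw [← e1]
    simp only [nsmul_eq_mul]
    push_cast
    ring
  by_cases hS0 : S = 0
  · have h2 : ∀ x, 16 * T33 g x = t * T33 g x := by
      intro x
      have e1 : ∑ u ∈ H33, (5 * g (x + u) + T33 g (x + u) + S) = t * T33 g x := by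
        rw [Finset.sum_congr rfl (fun u _ => h (x + u)), ← Finset.mul_sum]
        rfl
      rw [Finset.sum_add_distrib, Finset.sum_add_distrib, ← Finset.mul_sum, T33_T33, hS0,
        Finset.sum_const_zero] at e1
      have e2 : ∑ u ∈ H33, g (x + u) = T33 g x := rfl
      rw [e2] at e1
      linarith
    by_cases hT : ∀ x, T33 g x = 0
    · obtain ⟨x, hx⟩ := Function.ne_iff.1 hg
      have h3 := h x
      rw [hT x, hS0, add_zero, add_zero] at h3
      exact (mul_right_cancel₀ hx h3).le
    · push Not at hT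
      obtain ⟨x, hx⟩ := hT
      have := mul_right_cancel₀ hx (h2 x)
      linarith
  · have := mul_right_cancel₀ hS0 h1
    linarith

lemma card33_right : ∀ a : ZMod 33, (univ.filter (fun b => b - a ∈ D33)).card = 7 := by decide

lemma card33_left : ∀ b : ZMod 33, (univ.filter (fun a => b - a ∈ D33)).card = 7 := by decide

lemma meet33 : ∀ a a' : ZMod 33, ∃ b, b - a ∈ D33 ∧ b - a' ∈ D33 := by decide

lemma point33 : ∀ b : ZMod 33, ∃ a, b - a ∈ D33 := by decide

lemma T33_vec : ∀ x : ZMod 33, ∑ u ∈ H33, ((if x + u = 0 then 1 else 0) : ℤ) =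
    ∑ u ∈ H33, (if x + u = 3 then 1 else 0) := by decide

open Classical in
/-- the graph has gap `√5 / 7` -/
theorem gap33 : Real.sqrt 5 / 7 ∈ gapsReg 7 := by
  have hα : ∀ a, (univ.filter (fun b => R33 a b)).card = 7 := by
    intro a
    rw [← card33_right a]
    unfold R33
    congr
  have hβ : ∀ b, (univ.filter (fun a => R33 a b)).card = 7 := by
    intro b
    rw [← card33_left b]
    unfold R33
    congr
  refine ⟨ZMod 33 ⊕ ZMod 33, inferInstance, bip R33, ⟨?_, ?_, ?_⟩, ?_⟩
  · apply bip_connected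
    · intro a a'
      obtain ⟨b, h1, h2⟩ := meet33 a a'
      exact bip_reach_two R33 (b := b) h1 h2
    · intro b
      exact point33 b
  · rw [Fintype.card_sum, ZMod.card]
    norm_num
  · rintro (a | b)
    · rw [card_nbrs_inl]; exact hα a
    · rw [card_nbrs_inr]; exact hβ b
  · apply le_antisymm
    · have := le_gap_bip R33 (by norm_num) hα hβ (c := 5)
        (fun g t hg h => eig33 g t hg (fun x => by rw [← opL33]; exact h x))
        (fun g t hg h => eig33 g t hg (fun x => by rw [← opR33]; exact h x))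
      exact_mod_cast this
    · set g : ZMod 33 → ℝ := fun x => (if x = 0 then 1 else 0) - (if x = 3 then 1 else 0) with hgdef
      have hg : g ≠ 0 := by
        intro h0
        have := congrFun h0 0
        simp only [hgdef, if_true, Pi.zero_apply] at this
        rw [if_neg (by decide)] at this
        norm_num at this
      have hT : ∀ x, T33 g x = 0 := by
        intro x
        have := T33_vec x
        unfold T33
        simp only [hgdef]
        rw [Finset.sum_sub_distrib]
        have h2 : ((∑ u ∈ H33, ((if x + u = 0 then 1 else 0) : ℤ) : ℤ) : ℝ) =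
          ((∑ u ∈ H33, ((if x + u = 3 then 1 else 0) : ℤ) : ℤ) : ℝ) := by rw [this]
        push_cast at h2
        linarith
      have hS : ∑ y, g y = 0 := by
        simp [hgdef]
      have := gap_bip_le R33 (d := 7) (by norm_num) hα hβ (c := 5) (by norm_num) hg
        (fun a => by rw [opL33, hT, hS]; ring)
      exact_mod_cast this

end Pool.Agent.H444R3.GapDefs
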