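import Pool.Agent.H444R3.GapConf

set_option autoImplicit false

/-!
Design graphs and projective planes.
-/

namespace Pool.Agent.H444R3.GapDefs

open Finset Configuration
open Pool.Agent.H177R2.SD

open Classical in
/-- a relation with the right counts gives a projective plane -/
lemma exists_plane {α β : Type} [Fintype α] [Fintype β] (R : α → β → Prop) {d : ℕ} (hd : 3 ≤ d)
    (hcard : Fintype.card α = Fintype.card β) (hv : 2 * d ≤ Fintype.card α)
    (h1 : ∀ a, (univ.filter (fun b => R a b)).card = d)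
    (h2 : ∀ b, (univ.filter (fun a => R a b)).card = d)
    (h3 : ∀ a a', a ≠ a' → (univ.filter (fun b => R a b ∧ R a' b)).card = 1) :
    ∃ (P L : Type) (_ : Membership P L) (_ : Fintype P) (_ : Fintype L)
      (_ : ProjectivePlane P L), ProjectivePlane.order P L = d - 1 := by
  letI : Membership α β := ⟨fun b a => R a b⟩
  have hmem : ∀ (a : α) (b : β), a ∈ b ↔ R a b := fun a b => Iff.rfl
  have hnd : Nondegenerate α β := by
    refine ⟨?_, ?_, ?_⟩
    · intro l
      by_contra hcon
      push Not at hcon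
      have : (univ.filter (fun a => R a l)) = univ := by
        rw [Finset.filter_eq_self]
        intro a _
        exact hcon a
      have h4 := h2 l
      rw [this, Finset.card_univ] at h4
      omega
    · intro p
      by_contra hcon
      push Not at hcon
      have : (univ.filter (fun b => R p b)) = univ := by
        rw [Finset.filter_eq_self]
        intro b _
        exact hcon b
      have h4 := h1 p
      rw [this, Finset.card_univ] at h4
      omega
    · intro p₁ p₂ l₁ l₂ e1 e2 e3 e4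
      by_cases hp : p₁ = p₂
      · exact Or.inl hp
      · right
        obtain ⟨l, hl⟩ := Finset.card_eq_one.1 (h3 p₁ p₂ hp)
        have a1 : l₁ ∈ (univ.filter (fun b => R p₁ b ∧ R p₂ b)) := by
          rw [Finset.mem_filter]; exact ⟨Finset.mem_univ _, e1, e2⟩
        have a2 : l₂ ∈ (univ.filter (fun b => R p₁ b ∧ R p₂ b)) := by
          rw [Finset.mem_filter]; exact ⟨Finset.mem_univ _, e3, e4⟩
        rw [hl, Finset.mem_singleton] at a1 a2
        rw [a1, a2]
  have hline : ∀ p₁ p₂ : α, p₁ ≠ p₂ → ∃ l : β, p₁ ∈ l ∧ p₂ ∈ l := by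
    intro p₁ p₂ hp
    obtain ⟨l, hl⟩ := Finset.card_eq_one.1 (h3 p₁ p₂ hp)
    have a1 : l ∈ (univ.filter (fun b => R p₁ b ∧ R p₂ b)) := by
      rw [hl]; exact Finset.mem_singleton_self l
    exact ⟨l, (Finset.mem_filter.1 a1).2⟩
  letI hHL : HasLines α β :=
    { hnd with
      mkLine := fun {p₁ p₂} h => Classical.choose (hline p₁ p₂ h)
      mkLine_ax := fun {p₁ p₂} h => Classical.choose_spec (hline p₁ p₂ h) }
  letI hHP : HasPoints α β := HasLines.hasPoints hcard
  have hconf : ∃ (p₁ p₂ p₃ : α) (l₁ l₂ l₃ : β),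
      p₁ ∉ l₂ ∧ p₁ ∉ l₃ ∧ p₂ ∉ l₁ ∧ p₂ ∈ l₂ ∧ p₂ ∈ l₃ ∧ p₃ ∉ l₁ ∧ p₃ ∈ l₂ ∧ p₃ ∉ l₃ := by
    obtain ⟨l₂, l₃, hl⟩ := Fintype.exists_pair_of_one_lt_card
      (show 1 < Fintype.card β by omega)
    obtain ⟨hp2, hp2'⟩ := HasPoints.mkPoint_ax (P := α) hl
    set p₂ : α := HasPoints.mkPoint hl with hp₂
    obtain ⟨p₃, hp₃, hne⟩ : ∃ p₃ ∈ (univ.filter (fun a => R a l₂)), p₃ ≠ p₂ :=
      Finset.exists_mem_ne (by rw [h2 l₂]; omega) p₂
    have hp3 : p₃ ∈ l₂ := (Finset.mem_filter.1 hp₃).2
    have hp3' : p₃ ∉ l₃ := by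
      intro h
      rcases hnd.eq_or_eq hp2 hp3 hp2' h with h4 | h4
      · exact hne h4.symm
      · exact hl h4
    obtain ⟨p₁, hp₁⟩ : ∃ p₁, p₁ ∉ (univ.filter (fun a => R a l₂)) ∪ (univ.filter (fun a => R a l₃)) := by
      by_contra hcon
      push Not at hcon
      have h4 : (univ.filter (fun a => R a l₂)) ∪ (univ.filter (fun a => R a l₃)) = univ := by
        rw [Finset.eq_univ_iff_forall]
        exact hcon
      have h5 := Finset.card_union_add_card_inter (univ.filter (fun a => R a l₂))
        (univ.filter (fun a => R a l₃))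
      rw [h4, Finset.card_univ, h2, h2] at h5
      have h6 : 0 < ((univ.filter (fun a => R a l₂)) ∩ (univ.filter (fun a => R a l₃))).card := by
        apply Finset.card_pos.2
        refine ⟨p₂, ?_⟩
        rw [Finset.mem_inter, Finset.mem_filter, Finset.mem_filter]
        exact ⟨⟨Finset.mem_univ _, hp2⟩, ⟨Finset.mem_univ _, hp2'⟩⟩
      omega
    obtain ⟨l₁, hl₁⟩ : ∃ l₁, l₁ ∉ (univ.filter (fun b => R p₂ b)) ∪ (univ.filter (fun b => R p₃ b)) := by
      by_contra hcon
      push Not at hcon
      have h4 : (univ.filter (fun b => R p₂ b)) ∪ (univ.filter (fun b => R p₃ b)) = univ := by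
        rw [Finset.eq_univ_iff_forall]
        exact hcon
      have h5 := Finset.card_union_add_card_inter (univ.filter (fun b => R p₂ b))
        (univ.filter (fun b => R p₃ b))
      rw [h4, Finset.card_univ, h1, h1] at h5
      have h6 : 0 < ((univ.filter (fun b => R p₂ b)) ∩ (univ.filter (fun b => R p₃ b))).card := by
        apply Finset.card_pos.2
        refine ⟨l₂, ?_⟩
        rw [Finset.mem_inter, Finset.mem_filter, Finset.mem_filter]
        exact ⟨⟨Finset.mem_univ _, hp2⟩, ⟨Finset.mem_univ _, hp3⟩⟩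
      omega
    rw [Finset.mem_union, Finset.mem_filter, Finset.mem_filter, not_or] at hp₁ hl₁
    refine ⟨p₁, p₂, p₃, l₁, l₂, l₃, ?_, ?_, ?_, hp2, hp2', ?_, hp3, hp3'⟩
    · exact fun h => hp₁.1 ⟨Finset.mem_univ _, h⟩
    · exact fun h => hp₁.2 ⟨Finset.mem_univ _, h⟩
    · exact fun h => hl₁.1 ⟨Finset.mem_univ _, h⟩
    · exact fun h => hl₁.2 ⟨Finset.mem_univ _, h⟩
  letI hPP : ProjectivePlane α β :=
    { hHP, hHL with
      exists_config := hconf }
  refine ⟨α, β, inferInstance, inferInstance, inferInstance, hPP, ?_⟩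
  obtain ⟨p⟩ : Nonempty α := Fintype.card_pos_iff.1 (by omega)
  have h4 := ProjectivePlane.lineCount_eq (P := α) (L := β) p
  have h5 : lineCount β p = d := by
    rw [lineCount, Nat.card_eq_fintype_card, Fintype.card_subtype, ← h1 p]
    rfl
  omega

variable {V : Type} [Fintype V]

open Classical in
/-- **design graphs** when there is no projective plane of order `d - 1` -/
theorem design_noplane (G : SimpleGraph V) {d : ℕ} (hd : 3 ≤ d) (hno : NoPlane (d - 1))
    (hG : IsMinDeg d G) (hD : IsDesignGraph G d) :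
    gap G ≤ Real.sqrt ((d : ℝ) - 2) / d := by
  obtain ⟨hc, h3, hmin⟩ := hG
  obtain ⟨P, l, hbip, hk, hl⟩ := hD
  have : Nonempty V := Fintype.card_pos_iff.1 (by omega)
  have hdpos : (0 : ℝ) < d := by exact_mod_cast (by omega : 0 < d)
  rcases design_reg G hd hmin hbip hk hl with h0 | ⟨hreg, hcard, hdP, hpar, hld, hgap⟩
  · exact h0.trans (by positivity)
  have hl0 : l ≠ 0 := by
    intro h
    rw [h] at hpar
    have : d * d ≥ 3 * d := Nat.mul_le_mul_right d hd
    omega
  have hl1 : l ≠ 1 := by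
    intro h
    subst h
    apply hno
    have hbig : 2 * d ≤ P.card := by
      have : d * d ≥ 3 * d := Nat.mul_le_mul_right d hd
      omega
    apply exists_plane (α := {x // x ∈ P}) (β := {x // x ∈ Pᶜ}) (fun a b => G.Adj a.1 b.1) hd
    · rw [Fintype.card_coe, Fintype.card_coe, hcard]
    · rw [Fintype.card_coe]; exact hbig
    · rintro ⟨a, ha⟩
      rw [← hreg a]
      refine Finset.card_bij (fun b _ => b.1) ?_ ?_ ?_
      · intro b hb
        rw [mem_nbrs]
        exact (Finset.mem_filter.1 hb).2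
      · intro b _ b' _ h
        exact Subtype.ext h
      · intro b hb
        rw [mem_nbrs] at hb
        exact ⟨⟨b, Finset.mem_compl.2 ((hbip a b hb).1 ha)⟩, by simpa using hb, rfl⟩
    · rintro ⟨b, hb⟩
      rw [← hreg b]
      refine Finset.card_bij (fun a _ => a.1) ?_ ?_ ?_
      · intro a ha
        rw [mem_nbrs]
        exact ((Finset.mem_filter.1 ha).2).symm
      · intro a _ a' _ h
        exact Subtype.ext h
      · intro p hp
        rw [mem_nbrs] at hp
        have : p ∈ P := by
          by_contra hp'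
          exact (Finset.mem_compl.1 hb) ((hbip b p hp).2 hp')
        exact ⟨⟨p, this⟩, by simpa using hp.symm, rfl⟩
    · rintro ⟨a, ha⟩ ⟨a', ha'⟩ hne
      rw [← hl a ha a' ha' (fun h => hne (Subtype.ext h))]
      refine Finset.card_bij (fun b _ => b.1) ?_ ?_ ?_
      · intro b hb
        rw [mem_common]
        exact (Finset.mem_filter.1 hb).2
      · intro b _ b' _ h
        exact Subtype.ext h
      · intro b hb
        rw [mem_common] at hb
        exact ⟨⟨b, Finset.mem_compl.2 ((hbip a b hb.1).1 ha)⟩, by simpa using hb, rfl⟩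
  have hl2 : (2 : ℝ) ≤ l := by exact_mod_cast (by omega : 2 ≤ l)
  refine hgap.trans ?_
  gcongr

/-- no projective plane of order `d - 1` for `d = 7 (mod 36)` -/
theorem noPlane_36 {d : ℕ} (hd : d % 36 = 7) : NoPlane (d - 1) := by
  classical
  rintro ⟨P, L, _, _, _, hPP, hord⟩
  have hR := planeRel_of_plane P L
  rw [hord] at hR
  have hcP : Fintype.card P = (d - 1) ^ 2 + (d - 1) + 1 := by
    have := ProjectivePlane.card_points P L
    rw [hord] at this
    exact this
  have hcL : Fintype.card L = (d - 1) ^ 2 + (d - 1) + 1 := by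
    have := ProjectivePlane.card_lines P L
    rw [hord] at this
    exact this
  have hd1 : d - 1 + 1 = d := by omega
  have hsq : 6 * (d - 1) ≤ (d - 1) ^ 2 := by
    rw [sq]
    exact Nat.mul_le_mul_right _ (by omega)
  have hsym : IsSymmetricDesign ((d - 1) ^ 2 + (d - 1) + 1) d 1 := by
    apply symm_of_rel (fun (p : P) (l : L) => p ∈ l) hcP hcL (by omega)
    · intro b
      have := hR.right b
      rw [hd1] at this
      exact this
    · intro a
      have := hR.left a
      rw [hd1] at this
      exact this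
    · intro a a' haa
      exact hR.line a a' haa
  obtain ⟨m, hm⟩ : ∃ m, d - 1 = 36 * m + 6 := ⟨(d - 7) / 36, by omega⟩
  have h := brc_local hsym (by omega) (by omega) (p := 3) Nat.prime_three (by norm_num)
    (by omega) (by omega) (by norm_num)
  obtain ⟨-, hsquare⟩ := h
  have h1 : ((d - 1) ^ 2 + (d - 1) + 1 - 1) / 2 = (18 * m + 3) * (36 * m + 7) := by
    rw [hm]
    have : (36 * m + 6) ^ 2 + (36 * m + 6) + 1 - 1 = 2 * ((18 * m + 3) * (36 * m + 7)) := by
      rw [Nat.add_sub_cancel]; ring
    rw [this, Nat.mul_div_cancel_left _ (by norm_num)]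
  rw [h1] at hsquare
  have hodd : Odd ((18 * m + 3) * (36 * m + 7)) := by
    rw [Nat.odd_mul]
    exact ⟨Nat.odd_iff.2 (by omega), Nat.odd_iff.2 (by omega)⟩
  rw [hodd.neg_one_pow] at hsquare
  have h7 : IsSquare (-1 : ZMod 3) := by simpa using hsquare
  revert h7
  rintro ⟨r, hr⟩
  revert hr
  revert r
  decide

end Pool.Agent.H444R3.GapDefs
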