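import Pool.Agent.H444R3.GapBip

set_option autoImplicit false

/-!
Projective planes, and projective planes minus a perfect matching.
-/

namespace Pool.Agent.H444R3.GapDefs

open Finset

open Classical in
/-- the counts of a projective plane of order `n` -/
structure IsPlaneRel {α β : Type} [Fintype α] [Fintype β] (R : α → β → Prop) (n : ℕ) : Prop where
  left : ∀ a, (univ.filter (fun b => R a b)).card = n + 1
  right : ∀ b, (univ.filter (fun a => R a b)).card = n + 1
  line : ∀ a a', a ≠ a' → (univ.filter (fun b => R a b ∧ R a' b)).card = 1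
  point : ∀ b b', b ≠ b' → (univ.filter (fun a => R a b ∧ R a b')).card = 1

lemma IsPlaneRel.flip {α β : Type} [Fintype α] [Fintype β] {R : α → β → Prop} {n : ℕ}
    (h : IsPlaneRel R n) : IsPlaneRel (fun b a => R a b) n :=
  ⟨h.right, h.left, h.point, h.line⟩

variable {α β : Type} [Fintype α] [Fintype β]

open Classical in
lemma opL_eq (R : α → β → Prop) (g : α → ℝ) (a : α) :
    opL R g a = ∑ a', ((univ.filter (fun b => R a b ∧ R a' b)).card : ℝ) * g a' := by
  unfold opL
  have h1 : ∀ b, (if R a b then (∑ a', if R a' b then g a' else 0) else 0) =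
      ∑ a', (if R a b ∧ R a' b then g a' else 0) := by
    intro b
    by_cases hb : R a b
    · simp [hb]
    · simp [hb]
  simp only [h1]
  rw [Finset.sum_comm]
  apply Finset.sum_congr rfl
  intro a' _
  rw [← Finset.sum_filter, Finset.sum_const, nsmul_eq_mul]

lemma opL_plane {R : α → β → Prop} {n : ℕ} (h : IsPlaneRel R n) (g : α → ℝ) (a : α) :
    opL R g a = n * g a + ∑ a', g a' := by
  classical
  rw [opL_eq]
  have h1 : ∀ a', ((univ.filter (fun b => R a b ∧ R a' b)).card : ℝ) * g a' =
      (if a' = a then n * g a' else 0) + g a' := by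
    intro a'
    by_cases ha : a' = a
    · subst ha
      have := h.left a'
      simp only [and_self, if_true]
      rw [this]
      push_cast
      ring
    · rw [if_neg ha, h.line a a' (Ne.symm ha)]
      simp
  rw [Finset.sum_congr rfl (fun a' _ => h1 a'), Finset.sum_add_distrib]
  simp

/-- the eigenvalues for a plane -/
lemma eig_plane {R : α → β → Prop} {n : ℕ} (h : IsPlaneRel R n) {g : α → ℝ} {t : ℝ} (hg : g ≠ 0)
    (H : ∀ a, opL R g a = t * g a) : (n : ℝ) ≤ t := by
  set S := ∑ a, g a with hS
  have h1 : ∀ a, (n : ℝ) * g a + S = t * g a := by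
    intro a
    rw [← H a, opL_plane h]
  by_cases hS0 : S = 0
  · obtain ⟨a, ha⟩ := Function.ne_iff.1 hg
    have h2 := h1 a
    rw [hS0, add_zero] at h2
    exact (mul_right_cancel₀ ha h2).le
  · have h2 : ∑ a, ((n : ℝ) * g a + S) = t * S := by
      rw [Finset.sum_congr rfl (fun a _ => h1 a), ← Finset.mul_sum]
    rw [Finset.sum_add_distrib, ← Finset.mul_sum, ← hS, Finset.sum_const, nsmul_eq_mul] at h2
    have h3 : (n : ℝ) + (Finset.univ : Finset α).card = t := by
      apply mul_right_cancel₀ hS0
      linarith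
    have h4 : (0 : ℝ) ≤ (Finset.univ : Finset α).card := Nat.cast_nonneg _
    linarith

open Classical in
/-- the gap of the incidence graph of a plane -/
theorem gap_plane {R : α → β → Prop} {n : ℕ} (h : IsPlaneRel R n) (hn : 0 < n) [Nonempty α]
    [Nonempty β] : IsReg (n + 1) (bip R) ∧ gap (bip R) = Real.sqrt n / ((n : ℝ) + 1) := by
  have hex : ∀ b, ∃ a, R a b := by
    intro b
    have h1 : 0 < (univ.filter (fun a => R a b)).card := by rw [h.right b]; omega
    obtain ⟨a, ha⟩ := Finset.card_pos.1 h1
    exact ⟨a, (Finset.mem_filter.1 ha).2⟩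
  have hmeet : ∀ a a', ∃ b, R a b ∧ R a' b := by
    intro a a'
    by_cases haa : a = a'
    · subst haa
      have h1 : 0 < (univ.filter (fun b => R a b)).card := by rw [h.left a]; omega
      obtain ⟨b, hb⟩ := Finset.card_pos.1 h1
      exact ⟨b, (Finset.mem_filter.1 hb).2, (Finset.mem_filter.1 hb).2⟩
    · have h1 : 0 < (univ.filter (fun b => R a b ∧ R a' b)).card := by
        rw [h.line a a' haa]; norm_num
      obtain ⟨b, hb⟩ := Finset.card_pos.1 h1
      exact ⟨b, (Finset.mem_filter.1 hb).2⟩
  have htwo : 1 < Fintype.card α := by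
    obtain ⟨b⟩ := ‹Nonempty β›
    have h1 : (univ.filter (fun a => R a b)).card ≤ Fintype.card α := Finset.card_le_univ _
    rw [h.right b] at h1
    omega
  refine ⟨⟨?_, ?_, ?_⟩, ?_⟩
  · apply bip_connected R _ hex
    intro a a'
    obtain ⟨b, h1, h2⟩ := hmeet a a'
    exact bip_reach_two R h1 h2
  · rw [Fintype.card_sum]
    have : 0 < Fintype.card β := Fintype.card_pos
    omega
  · rintro (a | b)
    · rw [card_nbrs_inl]; exact h.left a
    · rw [card_nbrs_inr]; exact h.right b
  · have hc : (((n + 1 : ℕ) : ℝ)) = (n : ℝ) + 1 := by push_cast; ring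
    apply le_antisymm
    · obtain ⟨a, a', haa⟩ := Fintype.exists_pair_of_one_lt_card htwo
      set g : α → ℝ := fun x => (if x = a then 1 else 0) - (if x = a' then 1 else 0) with hgdef
      have hg : g ≠ 0 := by
        intro h0
        have := congrFun h0 a
        simp [hgdef, haa] at this
      have hS : ∑ x, g x = 0 := by simp [hgdef]
      have := gap_bip_le R (d := n + 1) (by omega) h.left h.right (c := n)
        (by exact_mod_cast hn) hg (fun x => by rw [opL_plane h, hS, add_zero])
      rw [hc] at this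
      exact this
    · have := le_gap_bip R (d := n + 1) (by omega) h.left h.right (c := n)
        (fun g t hg H => eig_plane h hg H) (fun g t hg H => eig_plane h.flip hg H)
      rw [hc] at this
      exact this

/-- remove a perfect matching -/
def minus (R : α → β → Prop) (M : α ≃ β) (a : α) (b : β) : Prop := R a b ∧ M a ≠ b

open Classical in
lemma minus_left {R : α → β → Prop} {n : ℕ} (h : IsPlaneRel R n) {M : α ≃ β}
    (hM : ∀ a, R a (M a)) (a : α) : (univ.filter (fun b => minus R M a b)).card = n := by
  have h1 := h.left a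
  have h2 : (univ.filter (fun b => minus R M a b)) = (univ.filter (fun b => R a b)).erase (M a) := by
    ext b
    rw [Finset.mem_filter, Finset.mem_erase, Finset.mem_filter]
    constructor
    · rintro ⟨-, h3, h4⟩; exact ⟨Ne.symm h4, Finset.mem_univ _, h3⟩
    · rintro ⟨h3, -, h4⟩; exact ⟨Finset.mem_univ _, h4, Ne.symm h3⟩
  rw [h2, Finset.card_erase_of_mem (by simpa using hM a), h1]
  rfl

open Classical in
lemma minus_right {R : α → β → Prop} {n : ℕ} (h : IsPlaneRel R n) {M : α ≃ β}
    (hM : ∀ a, R a (M a)) (b : β) : (univ.filter (fun a => minus R M a b)).card = n := by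
  have h1 := h.right b
  have h2 : (univ.filter (fun a => minus R M a b)) =
      (univ.filter (fun a => R a b)).erase (M.symm b) := by
    ext a
    rw [Finset.mem_filter, Finset.mem_erase, Finset.mem_filter]
    constructor
    · rintro ⟨-, h3, h4⟩
      exact ⟨fun h5 => h4 (by rw [h5]; simp), Finset.mem_univ _, h3⟩
    · rintro ⟨h3, -, h4⟩
      exact ⟨Finset.mem_univ _, h4, fun h5 => h3 (by rw [← h5]; simp)⟩
  rw [h2, Finset.card_erase_of_mem (by
    have := hM (M.symm b)
    simpa using this), h1]
  rfl

open Classical in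
/-- sum over the points of a line -/
noncomputable def lsum (R : α → β → Prop) (g : α → ℝ) (b : β) : ℝ := ∑ a, if R a b then g a else 0

open Classical in
lemma sum_lsum (R : α → β → Prop) {m : ℕ} (h : ∀ a, (univ.filter (fun b => R a b)).card = m)
    (g : α → ℝ) : ∑ b, lsum R g b = m * ∑ a, g a := by
  unfold lsum
  rw [Finset.sum_comm, Finset.mul_sum]
  apply Finset.sum_congr rfl
  intro a _
  rw [← Finset.sum_filter, Finset.sum_const, nsmul_eq_mul, h a]

open Classical in
lemma sum_opL (R : α → β → Prop) {m : ℕ} (h : ∀ a, (univ.filter (fun b => R a b)).card = m)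
    (h' : ∀ b, (univ.filter (fun a => R a b)).card = m)
    (g : α → ℝ) : ∑ a, opL R g a = (m : ℝ) ^ 2 * ∑ a, g a := by
  have h1 : ∀ a, opL R g a = ∑ b, if R a b then lsum R g b else 0 := fun a => rfl
  simp only [h1]
  rw [Finset.sum_comm]
  have h2 : ∀ b, ∑ a, (if R a b then lsum R g b else 0) = m * lsum R g b := by
    intro b
    rw [← Finset.sum_filter, Finset.sum_const, nsmul_eq_mul, h' b]
  rw [Finset.sum_congr rfl (fun b _ => h2 b), ← Finset.mul_sum, sum_lsum R h]
  ring

open Classical in
lemma sum_mul_opL (R : α → β → Prop) (g : α → ℝ) :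
    ∑ a, g a * opL R g a = ∑ b, lsum R g b ^ 2 := by
  have h1 : ∀ a, g a * opL R g a = ∑ b, if R a b then g a * lsum R g b else 0 := by
    intro a
    have : opL R g a = ∑ b, if R a b then lsum R g b else 0 := rfl
    rw [this, Finset.mul_sum]
    apply Finset.sum_congr rfl
    intro b _
    split_ifs <;> simp
  simp only [h1]
  rw [Finset.sum_comm]
  apply Finset.sum_congr rfl
  intro b _
  have h2 : ∀ a, (if R a b then g a * lsum R g b else 0) =
      (if R a b then g a else 0) * lsum R g b := by
    intro a
    split_ifs <;> simp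
  simp only [h2]
  rw [← Finset.sum_mul]
  unfold lsum
  ring

lemma lsum_minus {R : α → β → Prop} {M : α ≃ β} (hM : ∀ a, R a (M a)) (g : α → ℝ) (b : β) :
    lsum (minus R M) g b = lsum R g b - g (M.symm b) := by
  classical
  unfold lsum
  have h1 : ∀ a, (if minus R M a b then g a else 0) =
      (if R a b then g a else 0) - (if a = M.symm b then g a else 0) := by
    intro a
    by_cases h2 : a = M.symm b
    · have h3 : M a = b := by rw [h2]; simp
      have h4 : R a b := by rw [← h3]; exact hM a
      have h5 : ¬ minus R M a b := fun h6 => h6.2 h3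
      rw [if_neg h5, if_pos h4, if_pos h2]
      ring
    · have h3 : M a ≠ b := by
        intro h3
        apply h2
        rw [← h3]; simp
      rw [if_neg h2, sub_zero]
      by_cases h4 : R a b
      · have h5 : minus R M a b := ⟨h4, h3⟩
        rw [if_pos h5, if_pos h4]
      · have h5 : ¬ minus R M a b := fun h6 => h4 h6.1
        rw [if_neg h5, if_neg h4]
  simp only [h1]
  rw [Finset.sum_sub_distrib]
  simp

/-- bounds for the eigenvalues of the plane minus a matching -/
lemma eig_minus {R : α → β → Prop} {n : ℕ} (h : IsPlaneRel R n) (hn : 1 ≤ n) {M : α ≃ β}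
    (hM : ∀ a, R a (M a)) {g : α → ℝ} {t : ℝ} (hg : g ≠ 0)
    (H : ∀ a, opL (minus R M) g a = t * g a) (hS : ∑ a, g a = 0) :
    (Real.sqrt n - 1) ^ 2 ≤ t ∧ t ≤ (Real.sqrt n + 1) ^ 2 := by
  have e1 : ∑ b, lsum R g b ^ 2 = n * ∑ a, g a ^ 2 := by
    rw [← sum_mul_opL, Finset.mul_sum]
    apply Finset.sum_congr rfl
    intro a _
    rw [opL_plane h, hS, add_zero]
    ring
  have e2 : ∑ b, lsum (minus R M) g b ^ 2 = t * ∑ a, g a ^ 2 := by
    rw [← sum_mul_opL, Finset.mul_sum]
    apply Finset.sum_congr rfl
    intro a _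
    rw [H a]
    ring
  have e3 : ∑ b, g (M.symm b) ^ 2 = ∑ a, g a ^ 2 :=
    Equiv.sum_comp M.symm (fun a => g a ^ 2)
  set G := ∑ a, g a ^ 2 with hG
  have hGpos : 0 < G := by
    obtain ⟨v, hv⟩ := Function.ne_iff.1 hg
    apply Finset.sum_pos' (fun v _ => sq_nonneg _)
    exact ⟨v, Finset.mem_univ _, by simpa using pow_pos (abs_pos.2 hv) 2⟩
  -- vectors in the Euclidean space
  set u : EuclideanSpace ℝ β := WithLp.toLp 2 (fun b => lsum R g b) with hu
  set w : EuclideanSpace ℝ β := WithLp.toLp 2 (fun b => g (M.symm b)) with hw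
  have n1 : ‖u‖ = Real.sqrt n * Real.sqrt G := by
    rw [EuclideanSpace.norm_eq, ← Real.sqrt_mul (Nat.cast_nonneg n), ← e1]
    simp [hu]
  have n2 : ‖w‖ = Real.sqrt G := by
    rw [EuclideanSpace.norm_eq, ← e3]
    simp [hw]
  have n3 : ‖u - w‖ = Real.sqrt (t * G) := by
    rw [EuclideanSpace.norm_eq, ← e2]
    simp [hu, hw, lsum_minus hM]
  have ht0 : 0 ≤ t * G := by
    rw [← e2]
    exact Finset.sum_nonneg (fun _ _ => sq_nonneg _)
  have ht : 0 ≤ t := by
    by_contra hneg
    push Not at hneg
    nlinarith
  have hsG : 0 < Real.sqrt G := Real.sqrt_pos.2 hGpos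
  have n3' : ‖u - w‖ = Real.sqrt t * Real.sqrt G := by
    rw [n3, Real.sqrt_mul ht]
  have hn1 : 1 ≤ Real.sqrt n := by
    rw [Real.one_le_sqrt]
    exact_mod_cast hn
  have hss : Real.sqrt t ^ 2 = t := Real.sq_sqrt ht
  constructor
  · have h1 := norm_sub_norm_le u w
    rw [n1, n2, n3'] at h1
    have h2 : Real.sqrt n - 1 ≤ Real.sqrt t := by
      by_contra hcon
      push Not at hcon
      have : Real.sqrt t * Real.sqrt G < (Real.sqrt n - 1) * Real.sqrt G :=
        mul_lt_mul_of_pos_right hcon hsG
      linarith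
    rw [← hss]
    have h3 : 0 ≤ Real.sqrt n - 1 := by linarith
    exact pow_le_pow_left₀ h3 h2 2
  · have h1 := norm_sub_le u w
    rw [n1, n2, n3'] at h1
    have h2 : Real.sqrt t ≤ Real.sqrt n + 1 := by
      by_contra hcon
      push Not at hcon
      have : (Real.sqrt n + 1) * Real.sqrt G < Real.sqrt t * Real.sqrt G :=
        mul_lt_mul_of_pos_right hcon hsG
      linarith
    rw [← hss]
    exact pow_le_pow_left₀ (Real.sqrt_nonneg _) h2 2

/-- bounds for all eigenvalues -/
lemma eig_minus_all {R : α → β → Prop} {n : ℕ} (h : IsPlaneRel R n) (hn : 1 ≤ n) {M : α ≃ β}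
    (hM : ∀ a, R a (M a)) {g : α → ℝ} {t : ℝ} (hg : g ≠ 0)
    (H : ∀ a, opL (minus R M) g a = t * g a) : (Real.sqrt n - 1) ^ 2 ≤ t := by
  classical
  by_cases hS : ∑ a, g a = 0
  · exact (eig_minus h hn hM hg H hS).1
  · have h1 : t * ∑ a, g a = (n : ℝ) ^ 2 * ∑ a, g a := by
      rw [← sum_opL (minus R M) (fun a => minus_left h hM a) (fun b => minus_right h hM b),
        Finset.mul_sum]
      apply Finset.sum_congr rfl
      intro a _
      rw [H a]
    have h2 := mul_right_cancel₀ hS h1
    rw [h2]
    have hn1 : 1 ≤ Real.sqrt n := by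
      rw [Real.one_le_sqrt]
      exact_mod_cast hn
    have h3 : Real.sqrt n ^ 2 = n := Real.sq_sqrt (Nat.cast_nonneg n)
    have h4 : Real.sqrt n - 1 ≤ (n : ℝ) := by nlinarith
    exact pow_le_pow_left₀ (by linarith) h4 2

open Classical in
/-- the plane minus a matching is connected -/
lemma minus_reach {R : α → β → Prop} {n : ℕ} (h : IsPlaneRel R n) (hn : 3 ≤ n) {M : α ≃ β}
    (hM : ∀ a, R a (M a)) (a₀ a₁ : α) :
    (bip (minus R M)).Reachable (Sum.inl a₀) (Sum.inl a₁) := by
  by_contra hcon
  set C : Finset α := univ.filter (fun a => (bip (minus R M)).Reachable (Sum.inl a₀) (Sum.inl a))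
    with hC
  set v : ℝ := (Fintype.card α : ℝ) with hv
  set c : ℝ := (C.card : ℝ) with hc
  have hcv : c < v := by
    rw [hc, hv]
    have : C ⊂ univ := by
      rw [Finset.ssubset_univ_iff]
      intro h1
      have : a₁ ∈ C := by rw [h1]; exact Finset.mem_univ _
      exact hcon (Finset.mem_filter.1 this).2
    exact_mod_cast Finset.card_lt_card this
  set g : α → ℝ := fun a => (if a ∈ C then v else 0) - c with hg
  have hg0 : g ≠ 0 := by
    intro h0
    have := congrFun h0 a₀
    have h1 : a₀ ∈ C := by
      rw [hC]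
      simp
    simp only [hg, h1, if_true, Pi.zero_apply] at this
    linarith
  have hS : ∑ a, g a = 0 := by
    simp only [hg]
    rw [Finset.sum_sub_distrib, Finset.sum_ite_mem, Finset.univ_inter, Finset.sum_const,
      Finset.sum_const, Finset.card_univ, nsmul_eq_mul, nsmul_eq_mul]
    ring
  have hconst : ∀ a b a', minus R M a b → minus R M a' b → g a' = g a := by
    intro a b a' h1 h2
    have hr : (bip (minus R M)).Reachable (Sum.inl a) (Sum.inl a') := bip_reach_two _ h1 h2
    have : a ∈ C ↔ a' ∈ C := by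
      simp only [hC, Finset.mem_filter, Finset.mem_univ, true_and]
      exact ⟨fun h3 => h3.trans hr, fun h3 => h3.trans hr.symm⟩
    simp only [hg, this]
  have H : ∀ a, opL (minus R M) g a = ((n : ℝ) ^ 2) * g a := by
    intro a
    unfold opL
    have h1 : ∀ b, (if minus R M a b then (∑ a', if minus R M a' b then g a' else 0) else 0) =
        if minus R M a b then n * g a else 0 := by
      intro b
      by_cases hb : minus R M a b
      · rw [if_pos hb, if_pos hb]
        have h2 : ∀ a', (if minus R M a' b then g a' else 0) =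
            if minus R M a' b then g a else 0 := by
          intro a'
          by_cases ha' : minus R M a' b
          · rw [if_pos ha', if_pos ha', hconst a b a' hb ha']
          · rw [if_neg ha', if_neg ha']
        simp only [h2]
        rw [← Finset.sum_filter, Finset.sum_const, nsmul_eq_mul, minus_right h hM b]
      · rw [if_neg hb, if_neg hb]
    simp only [h1]
    rw [← Finset.sum_filter, Finset.sum_const, nsmul_eq_mul, minus_left h hM a]
    ring
  have h1 := (eig_minus h (by omega) hM hg0 H hS).2
  have h2 : (n : ℝ) ≤ Real.sqrt n + 1 := by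
    by_contra hcon2
    push Not at hcon2
    have : (Real.sqrt n + 1) ^ 2 < (n : ℝ) ^ 2 := by
      apply pow_lt_pow_left₀ hcon2 (by positivity) (by norm_num)
    linarith
  have h3 : Real.sqrt n ^ 2 = n := Real.sq_sqrt (Nat.cast_nonneg n)
  have h4 : (3 : ℝ) ≤ n := by exact_mod_cast hn
  have h5 : 0 ≤ Real.sqrt n := Real.sqrt_nonneg _
  nlinarith [sq_nonneg (Real.sqrt n - 1)]

open Classical in
/-- **a plane minus a perfect matching** -/
theorem gap_minus {R : α → β → Prop} {n : ℕ} (h : IsPlaneRel R n) (hn : 3 ≤ n) [Nonempty α]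
    {M : α ≃ β} (hM : ∀ a, R a (M a)) :
    IsReg n (bip (minus R M)) ∧ (Real.sqrt n - 1) / n ≤ gap (bip (minus R M)) := by
  have hα : ∀ a, (univ.filter (fun b => minus R M a b)).card = n := fun a => minus_left h hM a
  have hβ : ∀ b, (univ.filter (fun a => minus R M a b)).card = n := fun b => minus_right h hM b
  have hex : ∀ b, ∃ a, minus R M a b := by
    intro b
    have h1 : 0 < (univ.filter (fun a => minus R M a b)).card := by rw [hβ b]; omega
    obtain ⟨a, ha⟩ := Finset.card_pos.1 h1
    exact ⟨a, (Finset.mem_filter.1 ha).2⟩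
  refine ⟨⟨?_, ?_, ?_⟩, ?_⟩
  · exact bip_connected _ (fun a a' => minus_reach h hn hM a a') hex
  · rw [Fintype.card_sum]
    obtain ⟨a⟩ := ‹Nonempty α›
    have h1 : (univ.filter (fun a' => R a' (M a))).card ≤ Fintype.card α := Finset.card_le_univ _
    rw [h.right (M a)] at h1
    omega
  · rintro (a | b)
    · rw [card_nbrs_inl]; exact hα a
    · rw [card_nbrs_inr]; exact hβ b
  · have hflip : (fun b a => minus R M a b) = minus (fun b a => R a b) M.symm := by
      funext b a
      simp only [minus, eq_iff_iff]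
      constructor
      · rintro ⟨h1, h2⟩
        exact ⟨h1, fun h3 => h2 (by rw [← h3]; simp)⟩
      · rintro ⟨h1, h2⟩
        exact ⟨h1, fun h3 => h2 (by rw [← h3]; simp)⟩
    have h1 := le_gap_bip (minus R M) (d := n) (by omega) hα hβ (c := (Real.sqrt n - 1) ^ 2)
      (fun g t hg H => eig_minus_all h (by omega) hM hg H)
      (fun g t hg H => by
        have H' : ∀ b, opL (minus (fun b a => R a b) M.symm) g b = t * g b := by
          intro b
          rw [← hflip]
          exact H b
        exact eig_minus_all h.flip (by omega) (M := M.symm) (fun b => by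
          have := hM (M.symm b)
          simpa using this) hg H')
    have hn1 : 1 ≤ Real.sqrt n := by
      rw [Real.one_le_sqrt]
      exact_mod_cast (by omega : 1 ≤ n)
    rw [Real.sqrt_sq (by linarith)] at h1
    exact h1

end Pool.Agent.H444R3.GapDefs
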