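import Pool.Agent.H444R3.GapDefs

set_option autoImplicit false

/-!
Elementary spectral facts on the gap.
-/

namespace Pool.Agent.H444R3.GapDefs

open Finset Matrix

variable {V : Type} [Fintype V]

lemma mem_nbrs (G : SimpleGraph V) (v w : V) : w ∈ nbrs G v ↔ G.Adj v w := by
  unfold nbrs
  simp

lemma mem_common (G : SimpleGraph V) (u v w : V) :
    w ∈ common G u v ↔ G.Adj u w ∧ G.Adj v w := by
  unfold common
  simp

lemma gap_le_of_eig (G : SimpleGraph V) {μ : ℝ} {f : V → ℝ} (hf : f ≠ 0)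
    (h : ∀ v, lap G f v = μ * f v) : gap G ≤ |μ - 1| := by
  unfold gap
  apply csInf_le
  · refine ⟨0, ?_⟩
    rintro r ⟨μ, f, -, -, rfl⟩
    exact abs_nonneg _
  · exact ⟨μ, f, hf, h, rfl⟩

lemma gap_nonneg (G : SimpleGraph V) : 0 ≤ gap G := by
  unfold gap
  apply Real.sInf_nonneg
  rintro r ⟨μ, f, -, -, rfl⟩
  exact abs_nonneg _

lemma le_gap (G : SimpleGraph V) {c : ℝ} (hex : ∃ (μ : ℝ) (f : V → ℝ), f ≠ 0 ∧
    ∀ v, lap G f v = μ * f v)
    (h : ∀ (μ : ℝ) (f : V → ℝ), f ≠ 0 → (∀ v, lap G f v = μ * f v) → c ≤ |μ - 1|) :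
    c ≤ gap G := by
  unfold gap
  apply le_csInf
  · obtain ⟨μ, f, hf, h'⟩ := hex
    exact ⟨_, μ, f, hf, h', rfl⟩
  · rintro r ⟨μ, f, hf, h', rfl⟩
    exact h μ f hf h'

lemma const_eig (G : SimpleGraph V) (h : ∀ v, 0 < (nbrs G v).card) (v : V) :
    lap G (fun _ => 1) v = 0 * (fun _ : V => (1 : ℝ)) v := by
  unfold lap
  have : ((nbrs G v).card : ℝ) ≠ 0 := by exact_mod_cast (h v).ne'
  simp [this]

lemma exists_eig (G : SimpleGraph V) [Nonempty V] (h : ∀ v, 0 < (nbrs G v).card) :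
    ∃ (μ : ℝ) (f : V → ℝ), f ≠ 0 ∧ ∀ v, lap G f v = μ * f v := by
  refine ⟨0, fun _ => 1, ?_, const_eig G h⟩
  intro h0
  have := congrFun h0 (Classical.arbitrary V)
  simp at this

lemma gap_le_one (G : SimpleGraph V) [Nonempty V] (h : ∀ v, 0 < (nbrs G v).card) :
    gap G ≤ 1 := by
  have := gap_le_of_eig G (μ := 0) (f := fun _ => 1) (by
    intro h0
    have := congrFun h0 (Classical.arbitrary V)
    simp at this) (const_eig G h)
  simpa using this

/-- gaps of connected graphs are at most `1` -/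
lemma bdd_gapsMin (d : ℕ) (hd : 0 < d) : BddAbove (gapsMin d) := by
  refine ⟨1, ?_⟩
  rintro r ⟨V, hV, G, ⟨hc, h3, hdeg⟩, rfl⟩
  haveI : Nonempty V := Fintype.card_pos_iff.1 (by omega)
  exact gap_le_one G (fun v => lt_of_lt_of_le hd (hdeg v))

lemma gapsReg_subset (d : ℕ) : gapsReg d ⊆ gapsMin d := by
  rintro r ⟨V, hV, G, ⟨hc, h3, hdeg⟩, rfl⟩
  exact ⟨V, hV, G, ⟨hc, h3, fun v => (hdeg v).ge⟩, rfl⟩

lemma bdd_gapsReg (d : ℕ) (hd : 0 < d) : BddAbove (gapsReg d) :=
  (bdd_gapsMin d hd).mono (gapsReg_subset d)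

/-- eigenvalue equation for regular graphs -/
lemma lap_reg (G : SimpleGraph V) {d : ℕ} (hd : 0 < d) {v : V} (hreg : (nbrs G v).card = d)
    (f : V → ℝ) (μ : ℝ) :
    lap G f v = μ * f v ↔ ∑ w ∈ nbrs G v, f w = (d * (1 - μ)) * f v := by
  unfold lap
  rw [hreg]
  have : (d : ℝ) ≠ 0 := by exact_mod_cast hd.ne'
  constructor
  · intro h
    have h2 : (∑ w ∈ nbrs G v, f w) / (d : ℝ) = (1 - μ) * f v := by linarith
    rw [div_eq_iff this] at h2
    rw [h2]; ring
  · intro h
    rw [h]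
    field_simp
    ring

/-- **test vectors** bound the gap of a regular graph from above -/
theorem gap_le_of_test (G : SimpleGraph V) {d : ℕ} (hd : 0 < d)
    (hreg : ∀ v, (nbrs G v).card = d) {c : ℝ} (hc : 0 ≤ c) {f : V → ℝ} (hf : f ≠ 0)
    (h : ∑ v, (∑ w ∈ nbrs G v, f w) ^ 2 ≤ c ^ 2 * ∑ v, f v ^ 2) : gap G ≤ c / d := by
  classical
  set A : Matrix V V ℝ := Matrix.of fun v w => if G.Adj v w then (1 : ℝ) else 0 with hAdef
  have hA : ∀ (g : V → ℝ) (v : V), (A *ᵥ g) v = ∑ w ∈ nbrs G v, g w := by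
    intro g v
    rw [Matrix.mulVec, dotProduct]
    unfold nbrs
    rw [Finset.sum_filter]
    apply Finset.sum_congr rfl
    intro w _
    simp only [hAdef, Matrix.of_apply]
    split_ifs <;> simp
  have hAT : Aᵀ = A := by
    ext v w
    simp only [hAdef, Matrix.transpose_apply, Matrix.of_apply, G.adj_comm]
  have hAH : A.IsHermitian := by
    rw [Matrix.IsHermitian, Matrix.conjTranspose_eq_transpose_of_trivial, hAT]
  set B : Matrix V V ℝ := A * A - (c ^ 2) • (1 : Matrix V V ℝ) with hBdef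
  have hB : B.IsHermitian := by
    rw [Matrix.IsHermitian, Matrix.conjTranspose_eq_transpose_of_trivial, hBdef,
      Matrix.transpose_sub, Matrix.transpose_mul, hAT, Matrix.transpose_smul,
      Matrix.transpose_one]
  have hBq : ∀ g : V → ℝ, star g ⬝ᵥ (B *ᵥ g) =
      ∑ v, (∑ w ∈ nbrs G v, g w) ^ 2 - c ^ 2 * ∑ v, g v ^ 2 := by
    intro g
    rw [hBdef, Matrix.sub_mulVec, dotProduct_sub, ← Matrix.mulVec_mulVec,
      Matrix.dotProduct_mulVec, Matrix.smul_mulVec, Matrix.one_mulVec]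
    have e1 : (star g ᵥ* A) = A *ᵥ g := by
      rw [← Matrix.mulVec_transpose, hAT]
      rfl
    rw [e1]
    have e2 : (A *ᵥ g) ⬝ᵥ (A *ᵥ g) = ∑ v, (∑ w ∈ nbrs G v, g w) ^ 2 := by
      rw [dotProduct]
      apply Finset.sum_congr rfl
      intro v _
      rw [hA]; ring
    rw [e2, dotProduct_smul]
    congr 1
    rw [smul_eq_mul]
    congr 1
    rw [dotProduct]
    apply Finset.sum_congr rfl
    intro v _
    simp only [Pi.star_apply, star_trivial]
    ring
  by_cases hall : ∀ i, 0 < hB.eigenvalues i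
  · have hpd := hB.posDef_iff_eigenvalues_pos.2 hall
    have := hpd.dotProduct_mulVec_pos hf
    rw [hBq] at this
    linarith
  · push Not at hall
    obtain ⟨i, hi⟩ := hall
    set g : V → ℝ := (hB.eigenvectorBasis i).ofLp with hg
    have hgB : B *ᵥ g = hB.eigenvalues i • g := by
      have := hB.mulVec_eigenvectorBasis i
      exact this
    have hg0 : g ≠ 0 := by
      intro h0
      have h1 : hB.eigenvectorBasis i = 0 := by
        ext v
        exact congrFun h0 v
      have h2 := hB.eigenvectorBasis.orthonormal.1 i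
      rw [h1] at h2
      simp at h2
    set t : ℝ := c ^ 2 + hB.eigenvalues i with ht
    have hgA : A *ᵥ (A *ᵥ g) = t • g := by
      have e1 : A *ᵥ (A *ᵥ g) = B *ᵥ g + c ^ 2 • g := by
        rw [hBdef, Matrix.sub_mulVec, Matrix.smul_mulVec, Matrix.one_mulVec,
          Matrix.mulVec_mulVec]
        simp
      rw [e1, hgB, ht, add_smul, add_comm]
    have hgpos : 0 < ∑ v, g v ^ 2 := by
      obtain ⟨v, hv⟩ := Function.ne_iff.1 hg0
      apply Finset.sum_pos' (fun v _ => sq_nonneg _)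
      exact ⟨v, Finset.mem_univ _, by simpa using pow_pos (abs_pos.2 hv) 2⟩
    have ht0 : 0 ≤ t := by
      have e1 : ∑ v, (∑ w ∈ nbrs G v, g w) ^ 2 = t * ∑ v, g v ^ 2 := by
        have h1 := hBq g
        rw [hgB, dotProduct_smul, smul_eq_mul] at h1
        have h2 : star g ⬝ᵥ g = ∑ v, g v ^ 2 := by
          rw [dotProduct]
          apply Finset.sum_congr rfl
          intro v _
          simp only [Pi.star_apply, star_trivial]
          ring
        rw [h2] at h1
        rw [ht]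
        linarith
      have e2 : 0 ≤ ∑ v, (∑ w ∈ nbrs G v, g w) ^ 2 := Finset.sum_nonneg (fun _ _ => sq_nonneg _)
      rw [e1] at e2
      by_contra hneg
      push Not at hneg
      nlinarith
    have htc : Real.sqrt t ≤ c := by
      rw [← Real.sqrt_sq hc]
      exact Real.sqrt_le_sqrt (by rw [ht]; linarith)
    have hdpos : (0 : ℝ) < d := by exact_mod_cast hd
    -- from an eigenvector of `A` with eigenvalue `θ`
    have key : ∀ (θ : ℝ) (e : V → ℝ), e ≠ 0 → A *ᵥ e = θ • e → |θ| ≤ c → gap G ≤ c / d := by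
      intro θ e he heA hθ
      have h1 : ∀ v, lap G e v = (1 - θ / d) * e v := by
        intro v
        rw [lap_reg G hd (hreg v), ← hA, heA]
        simp only [Pi.smul_apply, smul_eq_mul]
        field_simp
        ring
      have h2 := gap_le_of_eig G he h1
      have h3 : |1 - θ / d - 1| = |θ| / d := by
        rw [show 1 - θ / d - 1 = -(θ / d) by ring, abs_neg, abs_div, abs_of_pos hdpos]
      rw [h3] at h2
      exact h2.trans (by gcongr)
    set s := Real.sqrt t with hs
    have hs0 : 0 ≤ s := Real.sqrt_nonneg _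
    have hss : s * s = t := Real.mul_self_sqrt ht0
    by_cases hh : A *ᵥ g + s • g = 0
    · apply key (-s) g hg0
      · rw [neg_smul]
        exact eq_neg_of_add_eq_zero_left hh
      · rw [abs_neg, abs_of_nonneg hs0]
        exact htc
    · apply key s _ hh
      · rw [Matrix.mulVec_add, hgA, Matrix.mulVec_smul, smul_add, smul_smul, hss, add_comm]
      · rw [abs_of_nonneg hs0]
        exact htc

end Pool.Agent.H444R3.GapDefs
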