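import Mathlib

set_option autoImplicit false

open MvPolynomial

namespace Pool.Agent.H444R3.Surf

noncomputable section

/-- The affine polynomial `z^2 - w (w + X^(n-1))`; variables `0 = z`, `1 = w`, `2 = X`. -/
def F (n : ℕ) : MvPolynomial (Fin 3) ℂ := X 0 ^ 2 - X 1 * (X 1 + X 2 ^ (n - 1))

lemma finSucc_F (n : ℕ) :
    MvPolynomial.finSuccEquiv ℂ 2 (F n) =
      Polynomial.X ^ 2 - Polynomial.C ((X 0 : MvPolynomial (Fin 2) ℂ) * (X 0 + X 1 ^ (n - 1))) := by
  have h1 : (1 : Fin 3) = Fin.succ 0 := rfl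
  have h2 : (2 : Fin 3) = Fin.succ 1 := rfl
  simp only [F, map_sub, map_pow, map_mul, map_add, MvPolynomial.finSuccEquiv_X_zero]
  rw [h1, h2, MvPolynomial.finSuccEquiv_X_succ, MvPolynomial.finSuccEquiv_X_succ]

lemma irr_F (n : ℕ) : Irreducible (F n) := by
  rw [← MulEquiv.irreducible_iff (MvPolynomial.finSuccEquiv ℂ 2), finSucc_F]
  set c : MvPolynomial (Fin 2) ℂ := (X 0 : MvPolynomial (Fin 2) ℂ) * (X 0 + X 1 ^ (n - 1)) with hc
  have hmonic : (Polynomial.X ^ 2 - Polynomial.C c).Monic := Polynomial.monic_X_pow_sub_C c two_ne_zero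
  have hdeg : (Polynomial.X ^ 2 - Polynomial.C c).degree = 2 := by
    have := Polynomial.degree_X_pow_sub_C (n := 2) (by norm_num) c
    simpa using this
  have hX : Prime (X 0 : MvPolynomial (Fin 2) ℂ) := X_prime
  apply Polynomial.irreducible_of_eisenstein_criterion
    (P := Ideal.span {(X 0 : MvPolynomial (Fin 2) ℂ)})
  · rw [Ideal.span_singleton_prime hX.ne_zero]; exact hX
  · rw [hmonic.leadingCoeff, Ideal.mem_span_singleton]
    exact fun h => hX.not_unit (isUnit_of_dvd_one h)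
  · intro k hk
    rw [hdeg] at hk
    have hk2 : k < 2 := by exact_mod_cast hk
    interval_cases k
    · simp only [Polynomial.coeff_sub, Polynomial.coeff_X_pow, Polynomial.coeff_C_zero]
      rw [Ideal.mem_span_singleton]
      simp [hc]
    · simp [Polynomial.coeff_X_pow, Polynomial.coeff_C]
  · rw [hdeg]; norm_num
  · simp only [Polynomial.coeff_sub, Polynomial.coeff_X_pow, Polynomial.coeff_C_zero]
    rw [Ideal.span_singleton_pow, Ideal.mem_span_singleton]
    intro h
    have h' : (X 0 : MvPolynomial (Fin 2) ℂ) ^ 2 ∣ X 0 * (X 0 + X 1 ^ (n - 1)) := by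
      have := (dvd_neg.mpr h)
      simpa [hc] using this
    rw [pow_two, mul_dvd_mul_iff_left hX.ne_zero] at h'
    have h2 : (X 0 : MvPolynomial (Fin 2) ℂ) ∣ X 1 ^ (n - 1) := by
      have := dvd_sub h' (dvd_refl (X 0 : MvPolynomial (Fin 2) ℂ))
      simpa using this
    have h3 := hX.dvd_of_dvd_pow h2
    rw [MvPolynomial.X_dvd_X] at h3
    simp at h3
  · exact hmonic.isPrimitive

lemma prime_F (n : ℕ) : Prime (F n) := (irr_F n).prime

lemma F_ne_zero (n : ℕ) : F n ≠ 0 := (irr_F n).ne_zero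

end

end Pool.Agent.H444R3.Surf
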