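import Pool.Agent.H444R3.Surf1

set_option autoImplicit false

open MvPolynomial

namespace Pool.Agent.H444R3.Surf

noncomputable section

lemma F_eq (n : ℕ) : F n = monomial (Finsupp.single 0 2) 1 - (monomial (Finsupp.single 1 2) 1
    + monomial (Finsupp.single 1 1 + Finsupp.single 2 (n - 1)) 1) := by
  rw [F, monomial_single_add, ← X_pow_eq_monomial, ← X_pow_eq_monomial, ← X_pow_eq_monomial]
  ring

/-- exponent box -/
def box (a b d : ℕ) : Set (Fin 3 →₀ ℕ) := {m | m 0 ≤ a ∧ m 1 ≤ b ∧ m 0 + m 1 + m 2 ≤ d}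

/-- polynomials with exponents in the box -/
def V (a b d : ℕ) : Submodule ℂ (MvPolynomial (Fin 3) ℂ) := restrictSupport ℂ (box a b d)

lemma mem_V_iff (a b d : ℕ) (p : MvPolynomial (Fin 3) ℂ) :
    p ∈ V a b d ↔ degreeOf 0 p ≤ a ∧ degreeOf 1 p ≤ b ∧ totalDegree p ≤ d := by
  have hs : ∀ m : Fin 3 →₀ ℕ, (m.sum fun _ e => e) = m 0 + m 1 + m 2 := by
    intro m
    rw [Finsupp.sum_fintype _ _ (fun _ => rfl), Fin.sum_univ_three]
  rw [V, mem_restrictSupport_iff, degreeOf_le_iff, degreeOf_le_iff, totalDegree,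
    Finset.sup_le_iff]
  simp only [hs]
  constructor
  · intro h
    exact ⟨fun m hm => (h hm).1, fun m hm => (h hm).2.1, fun m hm => (h hm).2.2⟩
  · rintro ⟨h0, h1, h2⟩ m hm
    exact ⟨h0 m hm, h1 m hm, h2 m hm⟩

lemma supp_F {n : ℕ} (hn : 3 ≤ n) : ∀ m ∈ (F n).support,
    m = Finsupp.single 0 2 ∨ m = Finsupp.single 1 2 ∨
      m = Finsupp.single 1 1 + Finsupp.single 2 (n - 1) := by
  intro m hm
  rw [mem_support_iff, F_eq, coeff_sub, coeff_add, coeff_monomial, coeff_monomial,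
    coeff_monomial] at hm
  by_contra hcon
  push Not at hcon
  rw [if_neg (Ne.symm hcon.1), if_neg (Ne.symm hcon.2.1), if_neg (Ne.symm hcon.2.2)] at hm
  simp at hm

lemma mem_supp0 {n : ℕ} (hn : 3 ≤ n) : (Finsupp.single 0 2 : Fin 3 →₀ ℕ) ∈ (F n).support := by
  rw [mem_support_iff, F_eq, coeff_sub, coeff_add, coeff_monomial, coeff_monomial,
    coeff_monomial]
  rw [if_pos rfl, if_neg, if_neg]
  · simp
  · intro h; have := DFunLike.congr_fun h 0; simp at this
  · intro h; have := DFunLike.congr_fun h 0; simp at this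

lemma mem_supp1 {n : ℕ} (hn : 3 ≤ n) : (Finsupp.single 1 2 : Fin 3 →₀ ℕ) ∈ (F n).support := by
  rw [mem_support_iff, F_eq, coeff_sub, coeff_add, coeff_monomial, coeff_monomial,
    coeff_monomial]
  rw [if_pos rfl, if_neg, if_neg]
  · simp
  · intro h; have := DFunLike.congr_fun h 1; simp at this
  · intro h; have := DFunLike.congr_fun h 0; simp at this

lemma mem_supp2 {n : ℕ} (hn : 3 ≤ n) :
    (Finsupp.single 1 1 + Finsupp.single 2 (n - 1) : Fin 3 →₀ ℕ) ∈ (F n).support := by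
  rw [mem_support_iff, F_eq, coeff_sub, coeff_add, coeff_monomial, coeff_monomial,
    coeff_monomial]
  rw [if_pos rfl, if_neg, if_neg]
  · simp
  · intro h; have := DFunLike.congr_fun h 1; simp at this
  · intro h; have := DFunLike.congr_fun h 0; simp at this

lemma deg0_F {n : ℕ} (hn : 3 ≤ n) : degreeOf 0 (F n) = 2 := by
  apply le_antisymm
  · rw [degreeOf_le_iff]
    intro m hm
    rcases supp_F hn m hm with h | h | h <;> subst h <;> simp
  · have := monomial_le_degreeOf 0 (mem_supp0 hn)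
    simpa using this

lemma deg1_F {n : ℕ} (hn : 3 ≤ n) : degreeOf 1 (F n) = 2 := by
  apply le_antisymm
  · rw [degreeOf_le_iff]
    intro m hm
    rcases supp_F hn m hm with h | h | h <;> subst h <;> simp
  · have := monomial_le_degreeOf 1 (mem_supp1 hn)
    simpa using this

lemma tdeg_F {n : ℕ} (hn : 3 ≤ n) : totalDegree (F n) = n := by
  have hs : ∀ m : Fin 3 →₀ ℕ, (m.sum fun _ e => e) = m 0 + m 1 + m 2 := by
    intro m
    rw [Finsupp.sum_fintype _ _ (fun _ => rfl), Fin.sum_univ_three]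
  apply le_antisymm
  · rw [totalDegree, Finset.sup_le_iff]
    intro m hm
    rw [hs]
    rcases supp_F hn m hm with h | h | h
    · subst h; simp; omega
    · subst h; simp; omega
    · subst h; simp; omega
  · have := le_totalDegree (mem_supp2 hn)
    rw [hs] at this
    simp at this
    omega

lemma mul_F_mem {n : ℕ} (hn : 3 ≤ n) (a b d : ℕ) (G : MvPolynomial (Fin 3) ℂ) :
    F n * G ∈ V (a + 2) (b + 2) (d + n) ↔ G ∈ V a b d := by
  by_cases hG : G = 0
  · subst hG; simp
  rw [mem_V_iff, mem_V_iff, degreeOf_mul_eq (F_ne_zero n) hG, degreeOf_mul_eq (F_ne_zero n) hG,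
    totalDegree_mul_of_isDomain (F_ne_zero n) hG, deg0_F hn, deg1_F hn, tdeg_F hn]
  constructor
  · rintro ⟨h0, h1, h2⟩; exact ⟨by omega, by omega, by omega⟩
  · rintro ⟨h0, h1, h2⟩; exact ⟨by omega, by omega, by omega⟩

end

end Pool.Agent.H444R3.Surf
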