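import Pool.Agent.H444R3.Surf2

set_option autoImplicit false

open MvPolynomial

namespace Pool.Agent.H444R3.Surf

noncomputable section

section General

variable {σ M A : Type} [AddCommMonoid M] [CommRing A] [Algebra ℂ A]
  (w : σ → M) (ψ : MvPolynomial σ ℂ →ₐ[ℂ] A)

/-- the graded extension of `ψ` -/
def Phi : MvPolynomial σ ℂ →ₐ[ℂ] AddMonoidAlgebra A M :=
  aeval (fun i => AddMonoidAlgebra.single (w i) (ψ (X i)))

lemma Phi_monomial_one (m : σ →₀ ℕ) :
    Phi w ψ (monomial m 1) = AddMonoidAlgebra.single (Finsupp.weight w m) (ψ (monomial m 1)) := by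
  classical
  induction m using Finsupp.induction_linear with
  | zero =>
    have : (monomial (0 : σ →₀ ℕ) (1 : ℂ)) = 1 := rfl
    rw [this, map_one, map_one, map_zero]
    rfl
  | add f g hf hg =>
    have : (monomial (f + g) (1 : ℂ)) = monomial f 1 * monomial g 1 := by
      rw [monomial_mul, one_mul]
    rw [this, map_mul, hf, hg, map_mul, AddMonoidAlgebra.single_mul_single, map_add]
  | single i k =>
    rw [← X_pow_eq_monomial, map_pow, map_pow]
    rw [Phi, aeval_X, AddMonoidAlgebra.single_pow, Finsupp.weight_single]

lemma Phi_monomial (m : σ →₀ ℕ) (c : ℂ) :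
    Phi w ψ (monomial m c) = AddMonoidAlgebra.single (Finsupp.weight w m) (ψ (monomial m c)) := by
  have h : monomial m c = c • monomial m (1 : ℂ) := by
    rw [smul_monomial, smul_eq_mul, mul_one]
  rw [h, map_smul, map_smul, Phi_monomial_one, AddMonoidAlgebra.smul_single]

lemma Phi_apply (f : MvPolynomial σ ℂ) (d : M) :
    (Phi w ψ f).coeff d = ψ (weightedHomogeneousComponent w d f) := by
  classical
  induction f using MvPolynomial.induction_on' with
  | monomial u a =>
    rw [Phi_monomial, AddMonoidAlgebra.coeff_single, Finsupp.single_apply]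
    split_ifs with h
    · rw [IsWeightedHomogeneous.weightedHomogeneousComponent_same
        (isWeightedHomogeneous_monomial w u a h)]
    · rw [IsWeightedHomogeneous.weightedHomogeneousComponent_ne (m := Finsupp.weight w u) d
        (isWeightedHomogeneous_monomial w u a rfl) (fun h' => h h'.symm), map_zero]
  | add p q hp hq =>
    rw [map_add, AddMonoidAlgebra.coeff_add, Finsupp.add_apply, hp, hq, map_add, map_add]

/-- the bihomogeneous ideal of all polynomials whose homogeneous components vanish under `ψ` -/
def P : Ideal (MvPolynomial σ ℂ) := RingHom.ker (Phi w ψ)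

lemma mem_P_iff (f : MvPolynomial σ ℂ) :
    f ∈ P w ψ ↔ ∀ d, ψ (weightedHomogeneousComponent w d f) = 0 := by
  rw [P, RingHom.mem_ker]
  constructor
  · intro h d
    rw [← Phi_apply, h]; rfl
  · intro h
    apply AddMonoidAlgebra.ext
    ext d
    rw [Phi_apply, h]; rfl

lemma mem_P_of_hom {f : MvPolynomial σ ℂ} {d : M} (hf : IsWeightedHomogeneous w f d) :
    f ∈ P w ψ ↔ ψ f = 0 := by
  rw [mem_P_iff]
  constructor
  · intro h
    have := h d
    rwa [hf.weightedHomogeneousComponent_same] at this
  · intro h e
    by_cases he : e = d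
    · subst he; rwa [hf.weightedHomogeneousComponent_same]
    · rw [hf.weightedHomogeneousComponent_ne e he, map_zero]

lemma comp_mem_P {f : MvPolynomial σ ℂ} (hf : f ∈ P w ψ) (d : M) :
    weightedHomogeneousComponent w d f ∈ P w ψ := by
  rw [mem_P_of_hom w ψ (weightedHomogeneousComponent_isWeightedHomogeneous d f)]
  exact (mem_P_iff w ψ f).1 hf d

lemma P_prime [IsDomain A] [UniqueSums M] : (P w ψ).IsPrime := by
  haveI : IsDomain (AddMonoidAlgebra A M) := NoZeroDivisors.to_isDomain _
  exact RingHom.ker_isPrime _

/-- The graded piece of the quotient is the image of the graded piece. -/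
lemma finrank_piece (d : M) :
    Module.finrank ℂ
      (↥(weightedHomogeneousSubmodule ℂ w d) ⧸
        Submodule.comap (weightedHomogeneousSubmodule ℂ w d).subtype
          ((P w ψ).restrictScalars ℂ)) =
    Module.finrank ℂ ((weightedHomogeneousSubmodule ℂ w d).map ψ.toLinearMap) := by
  set L : ↥(weightedHomogeneousSubmodule ℂ w d) →ₗ[ℂ] A :=
    ψ.toLinearMap.comp (weightedHomogeneousSubmodule ℂ w d).subtype with hL
  have hker : Submodule.comap (weightedHomogeneousSubmodule ℂ w d).subtype
          ((P w ψ).restrictScalars ℂ) = LinearMap.ker L := by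
    ext ⟨f, hf⟩
    simp only [Submodule.mem_comap, Submodule.subtype_apply, Submodule.restrictScalars_mem,
      LinearMap.mem_ker, hL, LinearMap.comp_apply, AlgHom.toLinearMap_apply]
    exact mem_P_of_hom w ψ hf
  rw [hker]
  rw [LinearEquiv.finrank_eq L.quotKerEquivRange]
  have : LinearMap.range L = (weightedHomogeneousSubmodule ℂ w d).map ψ.toLinearMap := by
    rw [hL, LinearMap.range_comp, Submodule.range_subtype]
  rw [this]

end General

end

end Pool.Agent.H444R3.Surf
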