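import Pool.Agent.H444R3.Surf3

set_option autoImplicit false

open MvPolynomial

namespace Pool.Agent.H444R3.Surf

noncomputable section

/-- weights -/
abbrev wt : Fin 3 ⊕ Fin 3 → ℕ × ℕ :=
  Sum.elim (fun _ : Fin 3 => ((1, 0) : ℕ × ℕ)) (fun _ : Fin 3 => ((0, 1) : ℕ × ℕ))

/-- the affine chart map -/
def psiB : MvPolynomial (Fin 3 ⊕ Fin 3) ℂ →ₐ[ℂ] MvPolynomial (Fin 3) ℂ :=
  aeval (Sum.elim ![1, X 2, X 0] ![1, X 2, X 1])

lemma weight_wt (m : Fin 3 ⊕ Fin 3 →₀ ℕ) :
    Finsupp.weight wt m = (m (.inl 0) + m (.inl 1) + m (.inl 2),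
      m (.inr 0) + m (.inr 1) + m (.inr 2)) := by
  rw [Finsupp.weight_apply, Finsupp.sum_fintype _ _ (fun i => by simp)]
  rw [Fintype.sum_sum_type, Fin.sum_univ_three, Fin.sum_univ_three]
  simp

lemma psiB_monomial (m : Fin 3 ⊕ Fin 3 →₀ ℕ) (c : ℂ) :
    psiB (monomial m c) = monomial (Finsupp.single 0 (m (.inl 2)) + Finsupp.single 1 (m (.inr 2))
      + Finsupp.single 2 (m (.inl 1) + m (.inr 1))) c := by
  rw [psiB, aeval_monomial, Finsupp.prod_fintype _ _ (fun _ => pow_zero _), Fintype.prod_sum_type,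
    Fin.prod_univ_three, Fin.prod_univ_three]
  simp only [Sum.elim_inl, Sum.elim_inr, Matrix.cons_val_zero, Matrix.cons_val_one,
    Matrix.cons_val_two, Matrix.head_cons, Matrix.tail_cons, one_pow, one_mul]
  rw [monomial_eq (s := _ + _), Finsupp.prod_fintype _ _ (fun _ => pow_zero _),
    Fin.prod_univ_three]
  simp [algebraMap_eq]
  left
  ring

lemma map_psiB (s t : ℕ) :
    (weightedHomogeneousSubmodule ℂ wt (s, t)).map psiB.toLinearMap = V s t (s + t) := by
  apply le_antisymm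
  · rintro _ ⟨f, hf, rfl⟩
    rw [AlgHom.toLinearMap_apply]
    have hf' : IsWeightedHomogeneous wt f (s, t) := hf
    rw [f.as_sum, map_sum]
    apply Submodule.sum_mem
    intro m hm
    rw [psiB_monomial]
    have hw := hf' (mem_support_iff.1 hm)
    rw [weight_wt, Prod.mk.injEq] at hw
    rw [V, monomial_mem_restrictSupport]
    left
    simp only [box, Set.mem_setOf_eq, Finsupp.add_apply]
    simp
    omega
  · rw [V, restrictSupport_eq_span, Submodule.span_le]
    rintro _ ⟨m, hm, rfl⟩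
    obtain ⟨h0, h1, h2⟩ := hm
    set a1 := min (m 2) (s - m 0) with ha1
    set b1 := m 2 - a1 with hb1
    let e : Fin 3 ⊕ Fin 3 →₀ ℕ := Finsupp.equivFunOnFinite.symm
      (Sum.elim ![s - a1 - m 0, a1, m 0] ![t - b1 - m 1, b1, m 1])
    refine ⟨monomial e 1, ?_, ?_⟩
    · apply isWeightedHomogeneous_monomial
      rw [weight_wt]
      simp [e]
      omega
    · rw [AlgHom.toLinearMap_apply, psiB_monomial]
      have : (Finsupp.single 0 (e (.inl 2)) + Finsupp.single 1 (e (.inr 2))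
        + Finsupp.single 2 (e (.inl 1) + e (.inr 1)) : Fin 3 →₀ ℕ) = m := by
        refine Finsupp.ext (fun i => ?_)
        fin_cases i
        · simp [e]
        · simp [e]
        · simp [e]
          omega
      rw [this]

end

end Pool.Agent.H444R3.Surf
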