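import Pool.Agent.H444R3.Surf4

set_option autoImplicit false

open MvPolynomial

namespace Pool.Agent.H444R3.Surf

noncomputable section

/-- the box as a sigma type -/
def boxEquiv (a b d : ℕ) :
    box a b d ≃ (Σ p : Fin (a + 1) × Fin (b + 1), Fin (d + 1 - p.1 - p.2)) where
  toFun m := ⟨(⟨m.1 0, by have := m.2.1; omega⟩, ⟨m.1 1, by have := m.2.2.1; omega⟩),
    ⟨m.1 2, by have := m.2.2.2; simp only; omega⟩⟩
  invFun x := ⟨Finsupp.equivFunOnFinite.symm ![x.1.1, x.1.2, x.2], by
    have h1 := x.1.1.2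
    have h2 := x.1.2.2
    have h3 := x.2.2
    refine ⟨?_, ?_, ?_⟩ <;> simp <;> omega⟩
  left_inv m := by
    apply Subtype.ext
    refine Finsupp.ext (fun i => ?_)
    fin_cases i <;> simp
  right_inv x := by
    rcases x with ⟨⟨i, j⟩, k⟩
    simp

/-- number of points of the box -/
def N (a b d : ℕ) : ℕ := ∑ i ∈ Finset.range (a + 1), ∑ j ∈ Finset.range (b + 1), (d + 1 - i - j)

instance (a b d : ℕ) : Finite (box a b d) := Finite.of_equiv _ (boxEquiv a b d).symm

instance (a b d : ℕ) : Module.Finite ℂ (V a b d) :=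
  Module.Finite.of_basis (basisRestrictSupport ℂ (box a b d))

lemma finrank_V (a b d : ℕ) : Module.finrank ℂ (V a b d) = N a b d := by
  classical
  have h : Module.finrank ℂ (V a b d) = Nat.card (box a b d) :=
    Module.finrank_eq_nat_card_basis (basisRestrictSupport ℂ (box a b d))
  rw [h, Nat.card_congr (boxEquiv a b d), Nat.card_eq_fintype_card, Fintype.card_sigma]
  simp only [Fintype.card_fin]
  rw [Fintype.sum_prod_type, N, Finset.sum_range]
  apply Finset.sum_congr rfl
  intro i _
  rw [Finset.sum_range]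

/-- the quotient map -/
def mkF (n : ℕ) : MvPolynomial (Fin 3) ℂ →ₐ[ℂ] (MvPolynomial (Fin 3) ℂ ⧸ Ideal.span {F n}) :=
  Ideal.Quotient.mkₐ ℂ (Ideal.span {F n})

lemma finrank_map {n : ℕ} (hn : 3 ≤ n) (a b d : ℕ) :
    Module.finrank ℂ ((V (a + 2) (b + 2) (d + n)).map (mkF n).toLinearMap) + N a b d
      = N (a + 2) (b + 2) (d + n) := by
  set W := V (a + 2) (b + 2) (d + n) with hW
  set L : W →ₗ[ℂ] (MvPolynomial (Fin 3) ℂ ⧸ Ideal.span {F n}) :=
    (mkF n).toLinearMap.comp W.subtype with hL
  have hrange : LinearMap.range L = W.map (mkF n).toLinearMap := by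
    rw [hL, LinearMap.range_comp, Submodule.range_subtype]
  have hrn := LinearMap.finrank_range_add_finrank_ker L
  rw [hrange, finrank_V] at hrn
  rw [← hrn]
  congr 1
  -- multiplication by F
  set μ : V a b d →ₗ[ℂ] W :=
    LinearMap.codRestrict W ((LinearMap.mulLeft ℂ (F n)).comp (V a b d).subtype) (by
      rintro ⟨G, hG⟩
      exact (mul_F_mem hn a b d G).2 hG) with hμ
  have hinj : Function.Injective μ := by
    intro x y hxy
    have := congrArg Subtype.val hxy
    simp only [hμ, LinearMap.codRestrict_apply, LinearMap.comp_apply, LinearMap.mulLeft_apply,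
      Submodule.subtype_apply] at this
    exact Subtype.ext (mul_left_cancel₀ (F_ne_zero n) this)
  have hker : LinearMap.range μ = LinearMap.ker L := by
    ext ⟨f, hf⟩
    rw [LinearMap.mem_ker, LinearMap.mem_range]
    have : L ⟨f, hf⟩ = 0 ↔ f ∈ Ideal.span {F n} := by
      simp only [hL, LinearMap.comp_apply, Submodule.subtype_apply, AlgHom.toLinearMap_apply, mkF,
        Ideal.Quotient.mkₐ_eq_mk]
      exact Ideal.Quotient.eq_zero_iff_mem
    rw [this, Ideal.mem_span_singleton]
    constructor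
    · rintro ⟨G, hG⟩
      exact ⟨G.1, (congrArg Subtype.val hG).symm⟩
    · rintro ⟨G, rfl⟩
      exact ⟨⟨G, (mul_F_mem hn a b d G).1 hf⟩, rfl⟩
  rw [← hker, LinearMap.finrank_range_of_inj hinj, finrank_V]

instance (n : ℕ) : IsDomain (MvPolynomial (Fin 3) ℂ ⧸ Ideal.span {F n}) := by
  have : (Ideal.span {F n}).IsPrime := by
    rw [Ideal.span_singleton_prime (F_ne_zero n)]; exact prime_F n
  infer_instance

end

end Pool.Agent.H444R3.Surf
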