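import Pool.Agent.H444R3.Surf5

set_option autoImplicit false

open MvPolynomial

namespace Pool.Agent.H444R3.Surf

noncomputable section

/-- reflected sum -/
def g (n p q : ℕ) : ℕ := ∑ i ∈ Finset.range p, ∑ j ∈ Finset.range q, (i + j + 5 - n)

lemma N_eq_g (n a b : ℕ) (h : n ≤ a + b + 4) : N a b (a + b + 4 - n) = g n (a + 1) (b + 1) := by
  rw [N, g, ← Finset.sum_range_reflect]
  apply Finset.sum_congr rfl
  intro i hi
  rw [← Finset.sum_range_reflect]
  apply Finset.sum_congr rfl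
  intro j hj
  rw [Finset.mem_range] at hi hj
  omega

lemma g_comm (n p q : ℕ) : g n p q = g n q p := by
  rw [g, g, Finset.sum_comm]
  apply Finset.sum_congr rfl
  intro i _
  apply Finset.sum_congr rfl
  intro j _
  omega

lemma g_succ (n p q : ℕ) (hp : n ≤ p) :
    (g n (p + 1) q : ℚ) = g n p q + (q * (2 * p + q + 9 - 2 * n) / 2 : ℚ) := by
  have h : (g n (p + 1) q) = g n p q + ∑ j ∈ Finset.range q, (p + j + 5 - n) := by
    rw [g, Finset.sum_range_succ, ← g]
  rw [h]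
  push_cast
  congr 1
  induction q with
  | zero => simp
  | succ q ih =>
    rw [Finset.sum_range_succ, ih]
    · rw [Nat.cast_sub (by omega)]
      push_cast
      ring
    · rw [g, Finset.sum_range_succ, ← g]

/-- quadratic part -/
def Q (n p q : ℕ) : ℚ := (p * q * (p + q + 8 - 2 * n) / 2 : ℚ)

lemma gQ_succ (n p q : ℕ) (hp : n ≤ p) :
    (g n (p + 1) q : ℚ) - Q n (p + 1) q = g n p q - Q n p q := by
  rw [g_succ n p q hp, Q, Q]
  push_cast
  ring

lemma gQ_const1 (n q : ℕ) (p : ℕ) (hp : n ≤ p) :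
    (g n p q : ℚ) - Q n p q = g n n q - Q n n q := by
  induction p, hp using Nat.le_induction with
  | base => rfl
  | succ p hp ih => rw [gQ_succ n p q hp, ih]

lemma gQ_const (n q : ℕ) (p : ℕ) (hp : n ≤ p) (hq : n ≤ q) :
    (g n p q : ℚ) - Q n p q = g n n n - Q n n n := by
  have hQ : ∀ p q, Q n p q = Q n q p := by
    intro p q; rw [Q, Q]; ring
  rw [gQ_const1 n q p hp, g_comm, hQ, gQ_const1 n n q hq]

lemma g_four (p q : ℕ) : (g 4 p q : ℚ) = p * q * (p + q) / 2 := by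
  induction p with
  | zero => simp [g]
  | succ p ih =>
    have h : (g 4 (p + 1) q) = g 4 p q + ∑ j ∈ Finset.range q, (p + j + 5 - 4) := by
      rw [g, Finset.sum_range_succ, ← g]
    rw [h, Nat.cast_add, ih, Nat.cast_sum]
    have h2 : ∀ q : ℕ, (∑ j ∈ Finset.range q, ((p + j + 5 - 4 : ℕ) : ℚ)) = q * (2 * p + q + 1) / 2 := by
      intro q
      induction q with
      | zero => simp
      | succ q ih2 =>
        rw [Finset.sum_range_succ, ih2, Nat.cast_sub (by omega)]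
        push_cast
        ring
    rw [h2]
    push_cast
    ring

theorem final (n : ℕ) (hn : 3 ≤ n) :
    ∃ P : Ideal (MvPolynomial (Fin 3 ⊕ Fin 3) ℂ), P.IsPrime ∧
        (∀ f ∈ P, ∀ d : ℕ × ℕ,
          MvPolynomial.weightedHomogeneousComponent
            (Sum.elim (fun _ : Fin 3 => ((1, 0) : ℕ × ℕ)) (fun _ : Fin 3 => ((0, 1) : ℕ × ℕ))) d f ∈ P) ∧
        ∃ a b c : ℚ, ∃ s₀ : ℕ, ∀ s t : ℕ, s₀ ≤ s → s₀ ≤ t →
          ((Module.finrank ℂ
              (↥(MvPolynomial.weightedHomogeneousSubmodule ℂ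
                  (Sum.elim (fun _ : Fin 3 => ((1, 0) : ℕ × ℕ)) (fun _ : Fin 3 => ((0, 1) : ℕ × ℕ))) (s, t)) ⧸
                Submodule.comap
                  (MvPolynomial.weightedHomogeneousSubmodule ℂ
                    (Sum.elim (fun _ : Fin 3 => ((1, 0) : ℕ × ℕ)) (fun _ : Fin 3 => ((0, 1) : ℕ × ℕ))) (s, t)).subtype
                  (P.restrictScalars ℂ)) : ℕ) : ℚ)
            = (s : ℚ) ^ 2 + (n : ℚ) * s * t + (t : ℚ) ^ 2 + a * s + b * t + c := by
  refine ⟨P wt ((mkF n).comp psiB), P_prime _ _, fun f hf d => comp_mem_P _ _ hf d, 4 - n, 4 - n,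
    (n : ℚ) - 2 - (g n n n - Q n n n), n + 2, ?_⟩
  intro s t hs ht
  rw [finrank_piece]
  have h1 : (weightedHomogeneousSubmodule ℂ wt (s, t)).map ((mkF n).comp psiB).toLinearMap
      = (V s t (s + t)).map (mkF n).toLinearMap := by
    rw [← map_psiB, ← Submodule.map_comp]
    rfl
  rw [h1]
  obtain ⟨a, rfl⟩ : ∃ a, s = a + 2 := ⟨s - 2, by omega⟩
  obtain ⟨b, rfl⟩ : ∃ b, t = b + 2 := ⟨t - 2, by omega⟩
  have h2 := finrank_map hn a b (a + b + 4 - n)
  have h3 : a + b + 4 - n + n = a + 2 + (b + 2) := by omega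
  rw [h3, N_eq_g n a b (by omega)] at h2
  have h4 : N (a + 2) (b + 2) (a + 2 + (b + 2)) = g 4 (a + 3) (b + 3) := by
    have := N_eq_g 4 (a + 2) (b + 2) (by omega)
    have h5 : a + 2 + (b + 2) + 4 - 4 = a + 2 + (b + 2) := by omega
    rwa [h5] at this
  rw [h4] at h2
  have h5 : (Module.finrank ℂ ((V (a + 2) (b + 2) (a + 2 + (b + 2))).map (mkF n).toLinearMap) : ℚ)
      = g 4 (a + 3) (b + 3) - g n (a + 1) (b + 1) := by
    rw [← h2]; push_cast; ring
  rw [h5, g_four]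
  have h6 := gQ_const n (b + 1) (a + 1) (by omega) (by omega)
  have h7 : (g n (a + 1) (b + 1) : ℚ) = Q n (a + 1) (b + 1) + (g n n n - Q n n n) := by
    rw [← h6]; ring
  rw [h7]
  generalize ((g n n n : ℚ) - Q n n n) = κ
  rw [Q]
  push_cast
  ring

end

end Pool.Agent.H444R3.Surf
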